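import Mathlib

set_option autoImplicit false

open Finset Polynomial

namespace Pool.Agent.H648R2.S

/-- the shift operator on sequences -/
def E (R : Type*) [AddCommGroup R] : Module.End ℤ (ℕ → R) where
  toFun f := fun n => f (n + 1)
  map_add' f g := by funext n; simp
  map_smul' a f := by funext n; simp

lemma E_apply {R : Type*} [AddCommGroup R] (f : ℕ → R) (n : ℕ) : E R f n = f (n + 1) := rfl

lemma E_pow {R : Type*} [AddCommGroup R] (i : ℕ) (f : ℕ → R) (n : ℕ) :
    ((E R) ^ i) f n = f (n + i) := by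
  induction i generalizing n with
  | zero => simp
  | succ i ih =>
    rw [pow_succ', Module.End.mul_apply, E_apply, ih]
    congr 1; omega

/-- the action of an integer polynomial in the shift -/
noncomputable def act {R : Type*} [AddCommGroup R] (P : ℤ[X]) (f : ℕ → R) : ℕ → R :=
  (aeval (E R) P) f

lemma act_eq {R : Type*} [AddCommGroup R] (P : ℤ[X]) (f : ℕ → R) (n : ℕ) :
    act P f n = ∑ i ∈ P.support, P.coeff i • f (n + i) := by
  unfold act
  rw [aeval_eq_sum_range, LinearMap.sum_apply, Finset.sum_apply]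
  have h1 : P.support ⊆ range (P.natDegree + 1) := supp_subset_range_natDegree_succ
  rw [← Finset.sum_subset h1]
  · apply Finset.sum_congr rfl
    intro i _
    rw [LinearMap.smul_apply, Pi.smul_apply, E_pow]
  · intro i _ hi
    rw [notMem_support_iff.1 hi]
    simp

lemma act_mul {R : Type*} [AddCommGroup R] (P Q : ℤ[X]) (f : ℕ → R) :
    act (P * Q) f = act P (act Q f) := by
  unfold act
  rw [map_mul, Module.End.mul_apply]

lemma act_X_sub_C {R : Type*} [AddCommGroup R] (b : ℤ) (f : ℕ → R) (n : ℕ) :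
    act (X - C b) f n = f (n + 1) - b • f n := by
  unfold act
  rw [map_sub, aeval_X, aeval_C, LinearMap.sub_apply]
  simp [E_apply]

lemma act_add {R : Type*} [AddCommGroup R] (P : ℤ[X]) (f g : ℕ → R) :
    act P (f + g) = act P f + act P g := by
  unfold act; rw [map_add]

lemma act_zsmul {R : Type*} [AddCommGroup R] (P : ℤ[X]) (a : ℤ) (f : ℕ → R) :
    act P (a • f) = a • act P f := by
  unfold act; rw [map_smul]

lemma act_E {R : Type*} [AddCommGroup R] (P : ℤ[X]) (f : ℕ → R) (n : ℕ) :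
    act P (fun k => f (k + 1)) n = act P f (n + 1) := by
  rw [act_eq, act_eq]
  apply Finset.sum_congr rfl
  intro i _
  congr 2; omega

lemma act_cast (P : ℤ[X]) (c : ℕ → ℤ) (n : ℕ) :
    act P (fun k => (c k : ℝ)) n = ((act P c n : ℤ) : ℝ) := by
  rw [act_eq, act_eq]
  push_cast
  apply Finset.sum_congr rfl
  intro i _
  simp

lemma abs_act_le (P : ℤ[X]) (x : ℕ → ℝ) (D H B : ℕ) (hD : P.support.card ≤ D)
    (hH : ∀ i, |P.coeff i| ≤ H) (hB : ∀ n, |x n| ≤ B) (n : ℕ) :
    |act P x n| ≤ (D * H * B : ℕ) := by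
  rw [act_eq]
  calc |∑ i ∈ P.support, P.coeff i • x (n + i)| ≤ ∑ i ∈ P.support, |P.coeff i • x (n + i)| :=
        Finset.abs_sum_le_sum_abs _ _
    _ ≤ ∑ i ∈ P.support, ((H : ℝ) * B) := by
        apply Finset.sum_le_sum
        intro i _
        rw [zsmul_eq_mul, abs_mul]
        apply mul_le_mul _ (hB _) (abs_nonneg _) (Nat.cast_nonneg _)
        exact_mod_cast hH i
    _ = P.support.card * ((H : ℝ) * B) := by rw [Finset.sum_const, nsmul_eq_mul]
    _ ≤ D * ((H : ℝ) * B) := by
        apply mul_le_mul_of_nonneg_right _ (by positivity)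
        exact_mod_cast hD
    _ = (D * H * B : ℕ) := by push_cast; ring

/-! ### division by `X - b` -/

lemma coeff_quot {b : ℕ} {P Q : ℤ[X]} (h : P = (X - C (b : ℤ)) * Q) (j : ℕ) :
    (b : ℤ) * Q.coeff (j + 1) = Q.coeff j - P.coeff (j + 1) := by
  rw [h, sub_mul, coeff_sub, coeff_X_mul, coeff_C_mul]; ring

lemma coeff_quot_zero {b : ℕ} {P Q : ℤ[X]} (h : P = (X - C (b : ℤ)) * Q) :
    (b : ℤ) * Q.coeff 0 = - P.coeff 0 := by
  rw [h, sub_mul, coeff_sub, coeff_C_mul]
  simp

lemma quot_bound {b : ℕ} (hb : 2 ≤ b) {P Q : ℤ[X]} (h : P = (X - C (b : ℤ)) * Q) (H : ℕ)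
    (hH : ∀ i, |P.coeff i| ≤ H) : ∀ i, |Q.coeff i| ≤ H := by
  have hbZ : (2 : ℤ) ≤ b := by exact_mod_cast hb
  intro i
  induction i with
  | zero =>
    have h1 := coeff_quot_zero h
    have h2 : |(b : ℤ) * Q.coeff 0| ≤ H := by rw [h1, abs_neg]; exact hH 0
    rw [abs_mul, abs_of_nonneg (by omega : (0 : ℤ) ≤ b)] at h2
    nlinarith [abs_nonneg (Q.coeff 0)]
  | succ i ih =>
    have h1 := coeff_quot h i
    have h2 : |(b : ℤ) * Q.coeff (i + 1)| ≤ 2 * H := by
      rw [h1]
      have := abs_sub (Q.coeff i) (P.coeff (i + 1))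
      have h3 := hH (i + 1)
      linarith
    rw [abs_mul, abs_of_nonneg (by omega : (0 : ℤ) ≤ b)] at h2
    nlinarith [abs_nonneg (Q.coeff (i + 1))]

/-- going down from a coefficient of the quotient through zero coefficients of `P` -/
lemma quot_down {b : ℕ} {P Q : ℤ[X]} (h : P = (X - C (b : ℤ)) * Q) (j : ℕ) :
    ∀ k, k ≤ j → (∀ i, j - k < i → i ≤ j → P.coeff i = 0) →
      Q.coeff (j - k) = (b : ℤ) ^ k * Q.coeff j := by
  intro k
  induction k with
  | zero => intro _ _; simp
  | succ k ih =>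
    intro hk hz
    have h1 := ih (by omega) (fun i hi1 hi2 => hz i (by omega) hi2)
    have h2 := coeff_quot h (j - (k + 1))
    have h3 : j - (k + 1) + 1 = j - k := by omega
    rw [h3, hz (j - k) (by omega) (by omega), h1, sub_zero] at h2
    rw [← h2, pow_succ]; ring

lemma quot_supp {b : ℕ} (hb : 2 ≤ b) {P Q : ℤ[X]} (h : P = (X - C (b : ℤ)) * Q) (H : ℕ)
    (hH : ∀ i, |P.coeff i| ≤ H) : Q.support.card ≤ P.support.card * H := by
  have hQ := quot_bound hb h H hH
  have hbZ : (2 : ℤ) ≤ b := by exact_mod_cast hb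
  have hsub : Q.support ⊆ Finset.image₂ (· + ·) P.support (range H) := by
    intro j hj
    rw [mem_support_iff] at hj
    by_contra hcon
    have hz : ∀ i, i ≤ j → j < i + H → P.coeff i = 0 := by
      intro i hi1 hi2
      by_contra hne
      apply hcon
      rw [Finset.mem_image₂]
      exact ⟨i, mem_support_iff.2 hne, j - i, Finset.mem_range.2 (by omega), by omega⟩
    by_cases hjH : H ≤ j
    · have h1 := quot_down h j H hjH (fun i hi1 hi2 => hz i hi2 (by omega))
      have h2 := hQ (j - H)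
      rw [h1, abs_mul, abs_pow, abs_of_nonneg (by omega : (0 : ℤ) ≤ b)] at h2
      have h3 : 1 ≤ |Q.coeff j| := Int.one_le_abs hj
      have h4 : (H : ℤ) < (b : ℤ) ^ H := by
        have h5 : H < b ^ H := Nat.lt_pow_self (by omega)
        exact_mod_cast h5
      nlinarith
    · have h1 := quot_down h j j le_rfl (fun i hi1 hi2 => hz i hi2 (by omega))
      rw [Nat.sub_self] at h1
      have h2 := coeff_quot_zero h
      rw [hz 0 (Nat.zero_le _) (by omega), neg_zero, h1] at h2
      have h3 : (b : ℤ) ≠ 0 := by omega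
      exact mul_ne_zero h3 (mul_ne_zero (pow_ne_zero _ h3) hj) h2
  refine (Finset.card_le_card hsub).trans ?_
  refine (Finset.card_image₂_le _ _ _).trans ?_
  rw [Finset.card_range]

/-- the lowest coefficient -/
lemma quot_low {b : ℕ} (hb : 2 ≤ b) {P Q : ℤ[X]} (h : P = (X - C (b : ℤ)) * Q) (a : ℕ)
    (hz : ∀ i, i < a → P.coeff i = 0) :
    (∀ i, i < a → Q.coeff i = 0) ∧ (b : ℤ) * Q.coeff a = - P.coeff a := by
  have hb0 : (b : ℤ) ≠ 0 := by omega
  have h1 : ∀ i, i < a → Q.coeff i = 0 := by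
    intro i
    induction i with
    | zero =>
      intro hi
      have h2 := coeff_quot_zero h
      rw [hz 0 hi, neg_zero] at h2
      exact (mul_eq_zero.1 h2).resolve_left hb0
    | succ i ih =>
      intro hi
      have h2 := coeff_quot h i
      rw [ih (by omega), hz (i + 1) hi, sub_zero] at h2
      exact (mul_eq_zero.1 h2).resolve_left hb0
  refine ⟨h1, ?_⟩
  rcases Nat.eq_zero_or_pos a with ha | ha
  · subst ha; exact coeff_quot_zero h
  · obtain ⟨a', rfl⟩ : ∃ a', a = a' + 1 := ⟨a - 1, by omega⟩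
    have h2 := coeff_quot h a'
    rw [h1 a' (by omega)] at h2
    rw [h2]; ring

end Pool.Agent.H648R2.S
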