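import Mathlib
import Pool.Agent.H648R2.S.Shift

set_option autoImplicit false

open Finset Polynomial

namespace Pool.Agent.H648R2.S

/-- one division step: the quotient kills a slightly shorter window -/
lemma window_div {b : ℕ} (hb : 2 ≤ b) {P Q : ℤ[X]} (h : P = (X - C (b : ℤ)) * Q) (D H B : ℕ)
    (hD : Q.support.card ≤ D) (hH : ∀ i, |Q.coeff i| ≤ H) (c : ℕ → ℤ) (hB : ∀ n, |c n| ≤ B)
    (m : ℕ) (hP : ∀ n, 1 ≤ n → n ≤ m → act P c n = 0) :
    ∀ n, 1 ≤ n → n ≤ m - (D * H * B) → act Q c n = 0 := by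
  intro n hn1 hn2
  have hbZ : (2 : ℤ) ≤ b := by exact_mod_cast hb
  have hrec : ∀ k, 1 ≤ k → k ≤ m → act Q c (k + 1) = b * act Q c k := by
    intro k hk1 hk2
    have h1 := hP k hk1 hk2
    rw [h, act_mul, act_X_sub_C, smul_eq_mul] at h1
    linarith
  have hup : ∀ j, n + j ≤ m + 1 → act Q c (n + j) = b ^ j * act Q c n := by
    intro j
    induction j with
    | zero => intro _; simp
    | succ j ih =>
      intro hj
      have h1 := hrec (n + j) (by omega) (by omega)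
      rw [← add_assoc, h1, ih (by omega), pow_succ]; ring
  by_contra hne
  have h1 : 1 ≤ |act Q c n| := Int.one_le_abs hne
  have h2 := hup (m + 1 - n) (by omega)
  have h3 : |act Q c (n + (m + 1 - n))| ≤ (D * H * B : ℕ) := by
    have h4 := abs_act_le Q (fun k => (c k : ℝ)) D H B hD hH
      (fun k => by exact_mod_cast hB k) (n + (m + 1 - n))
    rw [act_cast] at h4
    exact_mod_cast h4
  rw [h2, abs_mul, abs_pow, abs_of_nonneg (by omega : (0 : ℤ) ≤ b)] at h3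
  have h5 : D * H * B < b ^ (m + 1 - n) := by
    refine lt_of_lt_of_le (Nat.lt_pow_self (by omega : 1 < b)) ?_
    apply Nat.pow_le_pow_right (by omega)
    by_contra hcon
    push Not at hcon
    have : m - D * H * B = 0 ∨ n + D * H * B ≤ m := by omega
    omega
  have h6 : ((D * H * B : ℕ) : ℤ) < (b : ℤ) ^ (m + 1 - n) := by exact_mod_cast h5
  nlinarith

/-- removing all factors `X - b` -/
lemma elim {b : ℕ} (hb : 2 ≤ b) (H B : ℕ) : ∀ r D : ℕ, ∃ D' K : ℕ, ∀ (c : ℕ → ℤ),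
    (∀ n, |c n| ≤ B) → ∀ (m : ℕ) (P : ℤ[X]), P.support.card ≤ D → (∀ i, |P.coeff i| ≤ H) →
    (∃ a, P.coeff a ≠ 0 ∧ (∀ i, i < a → P.coeff i = 0) ∧ |P.coeff a| < (b : ℤ) ^ r) →
    (∀ n, 1 ≤ n → n ≤ m → act P c n = 0) →
    ∃ Q : ℤ[X], Q.support.card ≤ D' ∧ (∀ i, |Q.coeff i| ≤ H) ∧ Q.natDegree ≤ P.natDegree ∧
      Q.eval (b : ℤ) ≠ 0 ∧ ∀ n, 1 ≤ n → n ≤ m - K → act Q c n = 0 := by
  have hbZ : (2 : ℤ) ≤ b := by exact_mod_cast hb
  intro r
  induction r with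
  | zero =>
    intro D
    refine ⟨0, 0, ?_⟩
    intro c _ m P _ _ ⟨a, ha, _, ha2⟩ _
    exfalso
    rw [pow_zero] at ha2
    have := Int.one_le_abs ha
    omega
  | succ r ih =>
    intro D
    obtain ⟨D1, K1, h1⟩ := ih (D * H)
    refine ⟨max D D1, (D * H) * H * B + K1, ?_⟩
    intro c hc m P hD hH ⟨a, ha, haz, ha2⟩ hP
    by_cases hev : P.eval (b : ℤ) = 0
    · obtain ⟨Q, hQ⟩ := dvd_iff_isRoot.2 (show IsRoot P (b : ℤ) from hev)
      have hQH := quot_bound hb hQ H hH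
      have hQD : Q.support.card ≤ D * H :=
        (quot_supp hb hQ H hH).trans (Nat.mul_le_mul_right _ hD)
      obtain ⟨hl1, hl2⟩ := quot_low hb hQ a haz
      have hwin := window_div hb hQ (D * H) H B hQD hQH c hc m hP
      obtain ⟨Q', hq1, hq2, hq3, hq4, hq5⟩ := h1 c hc (m - (D * H) * H * B) Q hQD hQH
        ⟨a, by
          intro h0
          rw [h0, mul_zero] at hl2
          exact ha (by linarith), hl1, by
          have h3 : |(b : ℤ) * Q.coeff a| < (b : ℤ) ^ (r + 1) := by rw [hl2, abs_neg]; exact ha2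
          rw [abs_mul, abs_of_nonneg (by omega : (0 : ℤ) ≤ b), pow_succ'] at h3
          exact lt_of_mul_lt_mul_left h3 (by omega)⟩ hwin
      refine ⟨Q', hq1.trans (le_max_right _ _), hq2, hq3.trans ?_, hq4, ?_⟩
      · have hQ0 : Q ≠ 0 := by
          rintro rfl
          apply ha
          rw [hQ]; simp
        rw [hQ, natDegree_mul (X_sub_C_ne_zero _) hQ0]
        omega
      · intro n hn1 hn2
        exact hq5 n hn1 (by omega)
    · exact ⟨P, hD.trans (le_max_left _ _), hH, le_rfl, hev,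
        fun n hn1 hn2 => hP n hn1 (by omega)⟩

lemma elim' {b : ℕ} (hb : 2 ≤ b) (H B D : ℕ) : ∃ D' K : ℕ, ∀ (c : ℕ → ℤ),
    (∀ n, |c n| ≤ B) → ∀ (m : ℕ) (P : ℤ[X]), P ≠ 0 → P.support.card ≤ D →
    (∀ i, |P.coeff i| ≤ H) →
    (∀ n, 1 ≤ n → n ≤ m → act P c n = 0) →
    ∃ Q : ℤ[X], Q.support.card ≤ D' ∧ (∀ i, |Q.coeff i| ≤ H) ∧ Q.natDegree ≤ P.natDegree ∧
      Q.eval (b : ℤ) ≠ 0 ∧ ∀ n, 1 ≤ n → n ≤ m - K → act Q c n = 0 := by
  obtain ⟨D', K, h⟩ := elim hb H B H D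
  refine ⟨D', K, ?_⟩
  intro c hc m P hP0 hD hH hP
  refine h c hc m P hD hH ⟨P.natTrailingDegree, ?_, ?_, ?_⟩ hP
  · exact trailingCoeff_nonzero_iff_nonzero.2 hP0
  · intro i hi
    exact coeff_eq_zero_of_lt_natTrailingDegree hi
  · refine lt_of_le_of_lt (hH _) ?_
    have : H < b ^ H := Nat.lt_pow_self (by omega)
    exact_mod_cast this

end Pool.Agent.H648R2.S
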