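import Mathlib
import Pool.Agent.H393R2.Gap

set_option autoImplicit false

open Finset

namespace Pool.Agent.H648R2.S

open Pool.Agent.H393R2

/-- admissible exponents -/
def Adm (s : ℕ) (δ : ℝ) (L : ℕ) (e : Fin s → ℕ) : Prop :=
  (∀ i, L ≤ e i) ∧ (∀ i, δ * e i ≤ L) ∧ (∀ i j, i ≠ j → δ * L ≤ |(e i : ℝ) - e j|)

lemma Adm.mono {s : ℕ} {δ δ' : ℝ} {L : ℕ} {e : Fin s → ℕ} (h : Adm s δ L e) (hd : δ' ≤ δ) :
    Adm s δ' L e := by
  refine ⟨h.1, fun i => ?_, fun i j hij => ?_⟩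
  · exact le_trans (mul_le_mul_of_nonneg_right hd (Nat.cast_nonneg _)) (h.2.1 i)
  · exact le_trans (mul_le_mul_of_nonneg_right hd (Nat.cast_nonneg _)) (h.2.2 i j hij)

lemma Adm.comp {s s' : ℕ} {δ : ℝ} {L : ℕ} {e : Fin s → ℕ} (h : Adm s δ L e) (f : Fin s' → Fin s)
    (hf : Function.Injective f) : Adm s' δ L (fun i => e (f i)) :=
  ⟨fun i => h.1 _, fun i => h.2.1 _, fun i j hij => h.2.2 _ _ (fun hh => hij (hf hh))⟩

/-- bad data: exponentially good approximations by small combinations of separated powers -/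
def Bad (b : ℕ) (ξ : ℝ) (s : ℕ) (δ : ℝ) : Prop :=
  ∀ ε : ℝ, 0 < ε → ∀ L0 : ℕ, ∃ L : ℕ, L0 ≤ L ∧ ∃ e : Fin s → ℕ, Adm s δ L e ∧
    ∃ lam : Fin s → ℤ, lam ≠ 0 ∧ (∀ j, |(lam j : ℝ)| ≤ Real.exp (ε * (L * Real.log b))) ∧
      ∃ P : ℤ, |ξ * ∑ j, (lam j : ℝ) * (b : ℝ) ^ (e j) - P| ≤
        Real.exp (-(δ * (L * Real.log b)))

lemma not_bad_iff {b : ℕ} {ξ : ℝ} {s : ℕ} {δ : ℝ} (h : ¬ Bad b ξ s δ) :
    ∃ ε : ℝ, 0 < ε ∧ ∃ L0 : ℕ, ∀ L : ℕ, L0 ≤ L → ∀ e : Fin s → ℕ, Adm s δ L e →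
      ∀ lam : Fin s → ℤ, lam ≠ 0 → (∀ j, |(lam j : ℝ)| ≤ Real.exp (ε * (L * Real.log b))) →
      ∀ P : ℤ, Real.exp (-(δ * (L * Real.log b))) <
        |ξ * ∑ j, (lam j : ℝ) * (b : ℝ) ^ (e j) - P| := by
  unfold Bad at h
  push Not at h
  exact h

theorem gap {b : ℕ} (hb : 2 ≤ b) {ξ : ℝ} {s : ℕ} (δ δ1 : ℝ) (hδ : 0 < δ)
    (hδ1 : 0 < δ1)
    (h : ∀ δ' : ℝ, 0 < δ' → ¬ Bad b ξ s δ') :
    ∃ ε : ℝ, 0 < ε ∧ ∃ L0 : ℕ, ∀ L : ℕ, L0 ≤ L → ∀ e : Fin (s + 1) → ℕ, Adm (s + 1) δ L e →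
      ∀ (lam lam' : Fin (s + 1) → ℤ) (P P' : ℤ), lam ≠ 0 →
      (∀ i, |(lam i : ℝ)| ≤ Real.exp (ε * (L * Real.log b))) →
      (∀ i, |(lam' i : ℝ)| ≤ Real.exp (ε * (L * Real.log b))) →
      |ξ * ∑ i, (lam i : ℝ) * (b : ℝ) ^ (e i) - P| ≤ Real.exp (-(δ1 * (L * Real.log b))) →
      |ξ * ∑ i, (lam' i : ℝ) * (b : ℝ) ^ (e i) - P'| ≤
        Real.exp (-(δ1 * (L * Real.log b))) →
      (∀ u v : ℤ, (∀ i, u * lam i - v * lam' i = 0) → u * P - v * P' = 0 → v = 0) → False := by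
  set δ' : ℝ := min δ (δ1 / 4) with hδ'
  have hδ'0 : 0 < δ' := by rw [hδ']; apply lt_min hδ; positivity
  obtain ⟨ε', hε', L1, hL1⟩ := not_bad_iff (h δ' hδ'0)
  set ε : ℝ := min (ε' / 4) (δ1 / 4) with hεdef
  have hε : 0 < ε := by rw [hεdef]; apply lt_min <;> positivity
  refine ⟨ε, hε, max L1 (max ⌈2 / ε'⌉₊ ⌈4 / δ1⌉₊), ?_⟩
  intro L hL e he lam lam' P P' hlam hle hle' hf hf' hind
  have hL1' : L1 ≤ L := le_trans (le_max_left _ _) hL
  have hL2 : 2 / ε' ≤ L := by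
    refine le_trans (Nat.le_ceil _) ?_
    exact_mod_cast le_trans (le_trans (le_max_left _ _) (le_max_right _ _)) hL
  have hL3 : 4 / δ1 ≤ L := by
    refine le_trans (Nat.le_ceil _) ?_
    exact_mod_cast le_trans (le_trans (le_max_right _ _) (le_max_right _ _)) hL
  set N : ℝ := (L : ℝ) * Real.log b with hN
  have hN0 : 0 ≤ N := by
    have := Real.log_natCast_nonneg b
    positivity
  have he1 : 2 ≤ Real.exp (ε' / 2 * N) := by
    apply two_le_exp hb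
    rw [div_le_iff₀ hε'] at hL2
    linarith
  have he2 : 2 ≤ Real.exp (δ1 / 4 * N) := by
    apply two_le_exp hb
    rw [div_le_iff₀ hδ1] at hL3
    linarith
  -- choose j
  obtain ⟨j, hj⟩ : ∃ j, lam j ≠ 0 := by
    by_contra hcon
    push Not at hcon
    exact hlam (funext hcon)
  have hθ : ∀ (lam : Fin (s + 1) → ℤ), ∑ i, (lam i : ℝ) * (b : ℝ) ^ (e i) =
    ∑ i, (lam i : ℝ) * (fun i => (b : ℝ) ^ (e i)) i := fun _ => rfl
  set y : Fin (s + 1) → ℤ := fun i => lam' j * lam i - lam j * lam' i with hy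
  set Py : ℤ := lam' j * P - lam j * P' with hPy
  have hyj : y j = 0 := by rw [hy]; ring
  have hform : ξ * ∑ i, (y i : ℝ) * (b : ℝ) ^ (e i) - Py =
      lam' j * (ξ * ∑ i, (lam i : ℝ) * (b : ℝ) ^ (e i) - P) -
      lam j * (ξ * ∑ i, (lam' i : ℝ) * (b : ℝ) ^ (e i) - P') :=
    form_comb ξ (fun i => (b : ℝ) ^ (e i)) lam lam' P P' (lam' j) (lam j)
  have hformle : |ξ * ∑ i, (y i : ℝ) * (b : ℝ) ^ (e i) - Py| ≤
      2 * Real.exp (ε * N - δ1 * N) := by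
    rw [hform]
    refine le_trans (abs_sub _ _) ?_
    rw [abs_mul, abs_mul]
    have h1 : |(lam' j : ℝ)| * |ξ * ∑ i, (lam i : ℝ) * (b : ℝ) ^ (e i) - P| ≤
        Real.exp (ε * N) * Real.exp (-(δ1 * N)) :=
      mul_le_mul (hle' j) hf (abs_nonneg _) (Real.exp_pos _).le
    have h2 : |(lam j : ℝ)| * |ξ * ∑ i, (lam' i : ℝ) * (b : ℝ) ^ (e i) - P'| ≤
        Real.exp (ε * N) * Real.exp (-(δ1 * N)) :=
      mul_le_mul (hle j) hf' (abs_nonneg _) (Real.exp_pos _).le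
    rw [← Real.exp_add] at h1 h2
    have h3 : ε * N + -(δ1 * N) = ε * N - δ1 * N := by ring
    rw [h3] at h1 h2
    linarith
  have hyle : ∀ i, |(y i : ℝ)| ≤ 2 * Real.exp (2 * ε * N) := by
    intro i
    rw [hy]
    push_cast
    refine le_trans (abs_sub _ _) ?_
    rw [abs_mul, abs_mul]
    have h1 : |(lam' j : ℝ)| * |(lam i : ℝ)| ≤ Real.exp (ε * N) * Real.exp (ε * N) :=
      mul_le_mul (hle' j) (hle i) (abs_nonneg _) (Real.exp_pos _).le
    have h2 : |(lam j : ℝ)| * |(lam' i : ℝ)| ≤ Real.exp (ε * N) * Real.exp (ε * N) :=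
      mul_le_mul (hle j) (hle' i) (abs_nonneg _) (Real.exp_pos _).le
    rw [← Real.exp_add] at h1 h2
    have h3 : ε * N + ε * N = 2 * ε * N := by ring
    rw [h3] at h1 h2
    linarith
  have hεδ : ε ≤ δ1 / 4 := min_le_right _ _
  have hεε : ε ≤ ε' / 4 := min_le_left _ _
  have hδ'δ1 : δ' ≤ δ1 / 4 := min_le_right _ _
  have hsmall : 2 * Real.exp (ε * N - δ1 * N) ≤ Real.exp (-(δ' * N)) := by
    calc 2 * Real.exp (ε * N - δ1 * N) ≤ Real.exp (δ1 / 4 * N) * Real.exp (ε * N - δ1 * N) :=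
          mul_le_mul_of_nonneg_right he2 (Real.exp_pos _).le
      _ = Real.exp (δ1 / 4 * N + (ε * N - δ1 * N)) := by rw [Real.exp_add]
      _ ≤ Real.exp (-(δ' * N)) := by
          apply Real.exp_le_exp.mpr
          nlinarith
  by_cases hy0 : (fun i => y (j.succAbove i)) = 0
  · -- then the integer Py is small
    have hyall : ∀ i, y i = 0 := by
      intro i
      rcases Fin.eq_self_or_eq_succAbove j i with h1 | ⟨k, h1⟩
      · rw [h1]; exact hyj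
      · rw [h1]; exact congrFun hy0 k
    have hPy0 : Py = 0 := by
      by_contra hne
      have h1 : (1 : ℝ) ≤ |(Py : ℝ)| := by
        exact_mod_cast Int.one_le_abs hne
      have h2 : |(Py : ℝ)| ≤ 2 * Real.exp (ε * N - δ1 * N) := by
        have h3 : ξ * ∑ i, (y i : ℝ) * (b : ℝ) ^ (e i) - Py = -(Py : ℝ) := by
          simp [hyall]
        rw [h3, abs_neg] at hformle
        exact hformle
      have h4 : 2 * Real.exp (ε * N - δ1 * N) < 1 := by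
        have h5 : Real.exp (ε * N - δ1 * N) * (Real.exp (δ1 / 4 * N) * Real.exp (δ1 / 4 * N)) ≤ 1 := by
          rw [← Real.exp_add, ← Real.exp_add]
          rw [Real.exp_le_one_iff]
          nlinarith
        have h6 := Real.exp_pos (ε * N - δ1 * N)
        nlinarith
      linarith
    have := hind (lam' j) (lam j) hyall hPy0
    exact hj this
  · have h1 := hL1 L hL1' (fun i => e (j.succAbove i))
      ((he.mono (min_le_left _ _)).comp _ Fin.succAbove_right_injective)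
      (fun i => y (j.succAbove i)) hy0
      (by
        intro i
        refine le_trans (hyle _) ?_
        calc 2 * Real.exp (2 * ε * N) ≤ Real.exp (ε' / 2 * N) * Real.exp (2 * ε * N) :=
              mul_le_mul_of_nonneg_right he1 (Real.exp_pos _).le
          _ = Real.exp (ε' / 2 * N + 2 * ε * N) := by rw [Real.exp_add]
          _ ≤ Real.exp (ε' * N) := by
              apply Real.exp_le_exp.mpr
              nlinarith)
      Py
    have h2 : ∑ i, (y i : ℝ) * (b : ℝ) ^ (e i) =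
        ∑ i, (y (j.succAbove i) : ℝ) * (b : ℝ) ^ (e (j.succAbove i)) := by
      rw [Fin.sum_univ_succAbove _ j, hyj]
      simp
    rw [← h2] at h1
    exact absurd (le_trans hformle hsmall) (not_le.mpr h1)

end Pool.Agent.H648R2.S
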