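import Mathlib
import Pool.Agent.H648R2.S.Gap
import Pool.Agent.H393R2.Heights

set_option autoImplicit false

open Finset

namespace Pool.Agent.H648R2.S

open Pool.Agent.H393R2

/-- the height lemma, one coefficient -/
theorem heights_one {b : ℕ} (hb : 2 ≤ b) {ξ : ℝ} (hξ : IsAlgebraic ℚ ξ) (hirr : Irrational ξ)
    (δ : ℝ) (hδ : 0 < δ) :
    ∃ c : ℝ, 1 ≤ c ∧ ∃ L0 : ℕ, ∀ L : ℕ, L0 ≤ L → ∀ e : Fin 1 → ℕ, Adm 1 δ L e →
      ∀ (lam : Fin 1 → ℤ) (P : ℤ), (∀ i, lam i ≠ 0) →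
      |ξ * ∑ i, (lam i : ℝ) * (b : ℝ) ^ (e i) - P| ≤ Real.exp (-(δ * (L * Real.log b))) →
      ∀ p q : ℤ, q ≠ 0 →
        (Fin.cons (-P) lam : Fin 2 → ℤ) 1 * (b : ℤ) ^
            ((Fin.cons 0 e : Fin 2 → ℕ) 1) * p =
          -((Fin.cons (-P) lam : Fin 2 → ℤ) 0 * (b : ℤ) ^
            ((Fin.cons 0 e : Fin 2 → ℕ) 0) * q) →
        (L * Real.log b) / c ≤ Real.log (max |(p : ℝ)| |(q : ℝ)|) := by
  have hbR : (2 : ℝ) ≤ b := by exact_mod_cast hb
  have hb0 : (0 : ℝ) < b := by linarith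
  have hlogb : 0 < Real.log b := Real.log_pos (by linarith)
  obtain ⟨D, hD1, hD⟩ := liouville_log hξ hirr
  refine ⟨D, hD1, ⌈D / Real.log b⌉₊, ?_⟩
  intro L hL e he lam P hlam hf p q hq hpq
  have hLD : D ≤ L * Real.log b := by
    have h1 : D / Real.log b ≤ L := le_trans (Nat.le_ceil _) (by exact_mod_cast hL)
    rwa [div_le_iff₀ hlogb] at h1
  have h1 : (Fin.cons (-P) lam : Fin 2 → ℤ) 1 = lam 0 := rfl
  have h2 : (Fin.cons (-P) lam : Fin 2 → ℤ) 0 = -P := rfl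
  have h3 : (Fin.cons 0 e : Fin 2 → ℕ) 1 = e 0 := rfl
  have h4 : (Fin.cons 0 e : Fin 2 → ℕ) 0 = 0 := rfl
  have hpq' : lam 0 * (b : ℤ) ^ (e 0) * p = P * q := by
    have := hpq
    rw [h1, h2, h3, h4] at this
    linarith
  have hpqR : (lam 0 : ℝ) * (b : ℝ) ^ (e 0) * p = P * q := by exact_mod_cast hpq'
  have hqR : (q : ℝ) ≠ 0 := by exact_mod_cast hq
  have hPeq : (P : ℝ) = (lam 0 : ℝ) * (b : ℝ) ^ (e 0) * (p / q) := by
    field_simp
    linarith
  have hf' : |ξ - p / q| * (|(lam 0 : ℝ)| * (b : ℝ) ^ (e 0)) ≤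
      Real.exp (-(δ * (L * Real.log b))) := by
    have h5 : ξ * ∑ i : Fin 1, (lam i : ℝ) * (b : ℝ) ^ (e i) - P =
        (ξ - p / q) * ((lam 0 : ℝ) * (b : ℝ) ^ (e 0)) := by
      rw [Fin.sum_univ_one, hPeq]; ring
    have h6 := hf
    rw [h5, abs_mul, abs_mul, abs_of_pos (by positivity : (0 : ℝ) < (b : ℝ) ^ (e 0))]
      at h6
    exact h6
  have hlam1 : (1 : ℝ) ≤ |(lam 0 : ℝ)| := by
    exact_mod_cast Int.one_le_abs (hlam 0)
  have hbpow : Real.exp (L * Real.log b) ≤ (b : ℝ) ^ (e 0) := by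
    have h7 : (b : ℝ) ^ (L : ℕ) = Real.exp (L * Real.log b) := by
      rw [← Real.rpow_natCast, Real.rpow_def_of_pos hb0, mul_comm]
    rw [← h7]
    exact pow_le_pow_right₀ (by linarith) (he.1 0)
  have hfin : |ξ - p / q| ≤ Real.exp (-(L * Real.log b)) := by
    have h8 : |ξ - p / q| * Real.exp (L * Real.log b) ≤ 1 := by
      calc |ξ - p / q| * Real.exp (L * Real.log b)
          ≤ |ξ - p / q| * (|(lam 0 : ℝ)| * (b : ℝ) ^ (e 0)) := by
            apply mul_le_mul_of_nonneg_left _ (abs_nonneg _)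
            calc Real.exp (L * Real.log b) = 1 * Real.exp (L * Real.log b) := (one_mul _).symm
              _ ≤ _ := mul_le_mul hlam1 hbpow (Real.exp_pos _).le (by positivity)
        _ ≤ Real.exp (-(δ * (L * Real.log b))) := hf'
        _ ≤ 1 := by
          rw [Real.exp_le_one_iff]
          have : 0 ≤ δ * (L * Real.log b) := by positivity
          linarith
    rw [Real.exp_neg, ← one_div, le_div_iff₀ (Real.exp_pos _)]
    exact h8
  have h9 := hD p q (L * Real.log b) hLD hq hfin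
  refine le_trans h9 ?_
  apply Real.log_le_log (abs_pos.mpr hqR)
  exact le_max_right _ _

/-- the height lemma, two coefficients -/
theorem heights_two {b : ℕ} (hb : 2 ≤ b) {s : ℕ} (i1 i2 : Fin s) (hi : i1 ≠ i2)
    (δ : ℝ) (hδ : 0 < δ) (L : ℕ) (hL : 1 ≤ L) (e : Fin s → ℕ) (he : Adm s δ L e)
    (lam : Fin s → ℤ) (hlam : ∀ i, lam i ≠ 0)
    (hle : ∀ i, |(lam i : ℝ)| ≤ Real.exp (δ / 2 * (L * Real.log b)))
    (p q : ℤ) (hq : q ≠ 0)
    (hpq : lam i1 * (b : ℤ) ^ (e i1) * p = -(lam i2 * (b : ℤ) ^ (e i2) * q)) :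
    (L * Real.log b) / (max 1 (2 / δ)) ≤ Real.log (max |(p : ℝ)| |(q : ℝ)|) := by
  have hbR : (2 : ℝ) ≤ b := by exact_mod_cast hb
  have hb0 : (0 : ℝ) < b := by linarith
  have hlogb : 0 < Real.log b := Real.log_pos (by linarith)
  set N : ℝ := (L : ℝ) * Real.log b with hN
  have hN0 : 0 ≤ N := by rw [hN]; positivity
  have hbZ : (b : ℤ) ≠ 0 := by
    have : b ≠ 0 := by omega
    exact_mod_cast this
  have hp : p ≠ 0 := by
    rintro rfl
    rw [mul_zero] at hpq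
    have : lam i2 * (b : ℤ) ^ (e i2) * q = 0 := by linarith
    exact mul_ne_zero (mul_ne_zero (hlam i2) (pow_ne_zero _ hbZ)) hq this
  -- symmetric core
  have core : ∀ (i1 i2 : Fin s), e i1 < e i2 → i1 ≠ i2 → ∀ p q : ℤ, p ≠ 0 → q ≠ 0 →
      |(lam i1 : ℝ)| * (b : ℝ) ^ (e i1) * |(p : ℝ)| =
        |(lam i2 : ℝ)| * (b : ℝ) ^ (e i2) * |(q : ℝ)| →
      Real.exp (δ / 2 * N) ≤ |(p : ℝ)| := by
    intro i1 i2 hlt hne p q hp hq habs
    have hq1 : (1 : ℝ) ≤ |(q : ℝ)| := by exact_mod_cast Int.one_le_abs hq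
    have hlam2 : (1 : ℝ) ≤ |(lam i2 : ℝ)| := by exact_mod_cast Int.one_le_abs (hlam i2)
    have hexp : (b : ℝ) ^ (e i2) = (b : ℝ) ^ (e i1) * (b : ℝ) ^ (e i2 - e i1) := by
      rw [← pow_add]; congr 1; omega
    have hbig : (b : ℝ) ^ (e i2 - e i1) ≤ |(lam i1 : ℝ)| * |(p : ℝ)| := by
      have hbp : (0 : ℝ) < (b : ℝ) ^ (e i1) := by positivity
      have h2 : (b : ℝ) ^ (e i1) * (|(lam i1 : ℝ)| * |(p : ℝ)|) =
          (b : ℝ) ^ (e i1) * (|(lam i2 : ℝ)| * (b : ℝ) ^ (e i2 - e i1) *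
            |(q : ℝ)|) := by
        rw [hexp] at habs
        linarith
      have h3 := mul_left_cancel₀ hbp.ne' h2
      rw [h3]
      have hbb : (0 : ℝ) < (b : ℝ) ^ (e i2 - e i1) := by positivity
      calc (b : ℝ) ^ (e i2 - e i1) = 1 * (b : ℝ) ^ (e i2 - e i1) * 1 := by ring
        _ ≤ |(lam i2 : ℝ)| * (b : ℝ) ^ (e i2 - e i1) * |(q : ℝ)| := by
          apply mul_le_mul _ hq1 (by norm_num) (by positivity)
          exact mul_le_mul_of_nonneg_right hlam2 hbb.le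
    have hβ : Real.exp (δ * N) ≤ (b : ℝ) ^ (e i2 - e i1) := by
      have h4 : (b : ℝ) ^ (e i2 - e i1 : ℕ) = Real.exp ((e i2 - e i1 : ℕ) * Real.log b) := by
        rw [← Real.rpow_natCast, Real.rpow_def_of_pos hb0, mul_comm]
      rw [h4]
      apply Real.exp_le_exp.mpr
      rw [hN, ← mul_assoc]
      apply mul_le_mul_of_nonneg_right _ hlogb.le
      have h5 := he.2.2 i2 i1 (Ne.symm hne)
      rw [Nat.cast_sub hlt.le]
      rwa [abs_of_nonneg (by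
        have : (e i1 : ℝ) ≤ e i2 := by exact_mod_cast hlt.le
        linarith)] at h5
    have h5 : Real.exp (δ * N) ≤ Real.exp (δ / 2 * N) * |(p : ℝ)| := by
      refine le_trans hβ (le_trans hbig ?_)
      exact mul_le_mul_of_nonneg_right (hle i1) (abs_nonneg _)
    have h6 : Real.exp (δ * N) = Real.exp (δ / 2 * N) * Real.exp (δ / 2 * N) := by
      rw [← Real.exp_add]; congr 1; ring
    rw [h6] at h5
    exact le_of_mul_le_mul_left h5 (Real.exp_pos _)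
  have hpqR : (lam i1 : ℝ) * (b : ℝ) ^ (e i1) * p =
      -((lam i2 : ℝ) * (b : ℝ) ^ (e i2) * q) := by exact_mod_cast hpq
  have habs : |(lam i1 : ℝ)| * (b : ℝ) ^ (e i1) * |(p : ℝ)| =
      |(lam i2 : ℝ)| * (b : ℝ) ^ (e i2) * |(q : ℝ)| := by
    have h1 := congrArg abs hpqR
    rw [abs_neg, abs_mul, abs_mul, abs_mul, abs_mul,
      abs_of_pos (by positivity : (0 : ℝ) < (b : ℝ) ^ (e i1)),
      abs_of_pos (by positivity : (0 : ℝ) < (b : ℝ) ^ (e i2))] at h1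
    exact h1
  have hmax : Real.exp (δ / 2 * N) ≤ max |(p : ℝ)| |(q : ℝ)| := by
    have hsep := he.2.2 i1 i2 hi
    have hne : e i1 ≠ e i2 := by
      intro h
      rw [h, sub_self, abs_zero] at hsep
      have h1 : (1 : ℝ) ≤ L := by exact_mod_cast hL
      nlinarith
    rcases lt_or_gt_of_ne hne with h | h
    · exact le_trans (core i1 i2 h hi p q hp hq habs) (le_max_left _ _)
    · exact le_trans (core i2 i1 h (Ne.symm hi) q p hq hp habs.symm) (le_max_right _ _)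
  have h7 : N / max 1 (2 / δ) ≤ δ / 2 * N := by
    rw [div_le_iff₀ (by positivity)]
    have h8 : 2 / δ ≤ max 1 (2 / δ) := le_max_right _ _
    have h9 : δ / 2 * (2 / δ) = 1 := by field_simp
    calc N = δ / 2 * N * (2 / δ) := by linear_combination (-N) * h9
      _ ≤ δ / 2 * N * max 1 (2 / δ) := mul_le_mul_of_nonneg_left h8 (by positivity)
  refine le_trans h7 ?_
  rw [Real.le_log_iff_exp_le (lt_of_lt_of_le (Real.exp_pos _) hmax)]
  exact hmax

/-- the height lemma -/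
theorem heights {b : ℕ} (hb : 2 ≤ b) {ξ : ℝ} (hξ : IsAlgebraic ℚ ξ) (hirr : Irrational ξ)
    (s : ℕ) (δ : ℝ) (hδ : 0 < δ) :
    ∃ (j1 j2 : Fin (s + 2)), j1 ≠ 0 ∧ j1 ≠ j2 ∧ ∃ c : ℝ, 1 ≤ c ∧ ∃ L0 : ℕ, ∀ L : ℕ, L0 ≤ L →
      ∀ e : Fin (s + 1) → ℕ, Adm (s + 1) δ L e →
      ∀ (lam : Fin (s + 1) → ℤ) (P : ℤ), (∀ i, lam i ≠ 0) →
      (∀ i, |(lam i : ℝ)| ≤ Real.exp (δ / 2 * (L * Real.log b))) →
      |ξ * ∑ i, (lam i : ℝ) * (b : ℝ) ^ (e i) - P| ≤ Real.exp (-(δ * (L * Real.log b))) →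
      ∀ p q : ℤ, q ≠ 0 →
        (Fin.cons (-P) lam : Fin (s + 2) → ℤ) j1 * (b : ℤ) ^
            ((Fin.cons 0 e : Fin (s + 2) → ℕ) j1) * p =
          -((Fin.cons (-P) lam : Fin (s + 2) → ℤ) j2 * (b : ℤ) ^
            ((Fin.cons 0 e : Fin (s + 2) → ℕ) j2) * q) →
        (L * Real.log b) / c ≤ Real.log (max |(p : ℝ)| |(q : ℝ)|) := by
  rcases Nat.eq_zero_or_pos s with hs | hs
  · subst hs
    obtain ⟨c, hc, L0, h⟩ := heights_one hb hξ hirr δ hδ
    refine ⟨1, 0, by simp, by simp, c, hc, L0, ?_⟩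
    intro L hL e he lam P hlam _ hf p q hq hpq
    exact h L hL e he lam P hlam hf p q hq hpq
  · set i1 : Fin (s + 1) := 0 with hi1
    set i2 : Fin (s + 1) := ⟨1, by omega⟩ with hi2
    have hne : i1 ≠ i2 := by
      intro h
      have := congrArg Fin.val h
      simp [hi1, hi2] at this
    refine ⟨i1.succ, i2.succ, Fin.succ_ne_zero _, ?_, max 1 (2 / δ), le_max_left _ _, 1, ?_⟩
    · intro h
      exact hne (Fin.succ_injective _ h)
    · intro L hL e he lam P hlam hle _ p q hq hpq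
      simp only [Fin.cons_succ] at hpq
      exact heights_two hb i1 i2 hne δ hδ L hL e he lam hlam hle p q hq hpq

end Pool.Agent.H648R2.S
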