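import Mathlib
import Pool.Agent.H648R2.S.Gap
import Pool.Agent.H648R2.S.Heights
import Pool.Agent.H393R2.ThmA
import Pool.Agent.H393R2.Glue814
import Pool.Agent.H393R2.Geom4

set_option autoImplicit false

open Finset

namespace Pool.Agent.H648R2.S

open Pool.Agent.H393R2 (AuxPolyStmt RothStmt GeomStmt geom_apply codim_one_core exists_pq
  auxPolyStmt rothStmt geometry)

theorem bad_step (hAux : AuxPolyStmt) (hRoth : RothStmt) (hGeom : GeomStmt) {b : ℕ} (hb : 2 ≤ b)
    {ξ : ℝ} (hξ : IsIntegral ℤ ξ) (hirr : Irrational ξ) {s : ℕ}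
    (hIH : ∀ δ : ℝ, 0 < δ → ¬ Bad b ξ s δ) (δ : ℝ) (hδ : 0 < δ) :
    ¬ Bad b ξ (s + 1) δ := by
  intro hB
  have hbR : (2 : ℝ) ≤ b := by exact_mod_cast hb
  have hb0 : (0 : ℝ) < b := by linarith
  have hlogb : 0 < Real.log b := Real.log_pos (by linarith)
  have hξalg : IsAlgebraic ℚ ξ := by
    have h1 : IsAlgebraic ℤ ξ := hξ.isAlgebraic
    exact (IsFractionRing.isAlgebraic_iff ℤ ℚ ℝ).mp h1
  obtain ⟨ε1', hε1', L1, hgap⟩ := gap hb δ (δ / 2) hδ (by positivity) hIH
  obtain ⟨εu, hεu, Lu, hunif⟩ := not_bad_iff (hIH δ hδ)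
  obtain ⟨j1, j2, hj1, hj12, ch, hch, Lh, hheights⟩ := heights hb hξalg hirr s δ hδ
  obtain ⟨C, hC, hgeom⟩ := hGeom (s + 2) (by omega)
  set ε1 : ℝ := min ε1' (δ / 2) with hε1def
  have hε1 : 0 < ε1 := by rw [hε1def]; apply lt_min hε1'; positivity
  have hε11 : ε1 ≤ ε1' := min_le_left _ _
  have hε1δ : ε1 ≤ δ / 2 := min_le_right _ _
  set ε0 : ℝ := min (ε1 / 2) (min εu (δ / 2)) with hε0def
  have hε0 : 0 < ε0 := by
    rw [hε0def]; apply lt_min (by positivity); apply lt_min hεu; positivity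
  have hε01 : ε0 ≤ ε1 / 2 := min_le_left _ _
  have hε0u : ε0 ≤ εu := le_trans (min_le_right _ _) (min_le_left _ _)
  have hε0δ : ε0 ≤ δ / 2 := le_trans (min_le_right _ _) (min_le_right _ _)
  set Lmin : ℕ := max (max L1 (max Lu Lh)) (max 1 (max ⌈((4 * Real.log C + 1) / ε1) / Real.log b⌉₊
    ⌈(Real.log C + 1) / Real.log b⌉₊)) with hLmin
  have hdata : ∀ t : ℕ, ∃ L : ℕ, max t Lmin ≤ L ∧ ∃ e : Fin (s + 1) → ℕ, Adm (s + 1) δ L e ∧
    ∃ lam : Fin (s + 1) → ℤ, lam ≠ 0 ∧ (∀ j, |(lam j : ℝ)| ≤ Real.exp (ε0 * (L * Real.log b))) ∧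
      ∃ P : ℤ, |ξ * ∑ j, (lam j : ℝ) * (b : ℝ) ^ (e j) - P| ≤
        Real.exp (-(δ * (L * Real.log b))) := fun t => hB ε0 hε0 (max t Lmin)
  choose L hL ex hex lam hlam hle P hf using hdata
  have hLt : ∀ t, t ≤ L t := fun t => le_trans (le_max_left _ _) (hL t)
  have hLm : ∀ t, Lmin ≤ L t := fun t => le_trans (le_max_right _ _) (hL t)
  have hLL1 : ∀ t, L1 ≤ L t := fun t => le_trans (by rw [hLmin]; simp) (hLm t)
  have hLLu : ∀ t, Lu ≤ L t := fun t => le_trans (by rw [hLmin]; simp) (hLm t)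
  have hLLh : ∀ t, Lh ≤ L t := fun t => le_trans (by rw [hLmin]; simp) (hLm t)
  have hL1 : ∀ t, 1 ≤ L t := fun t => le_trans (by rw [hLmin]; simp) (hLm t)
  have hLc1 : ∀ t, ((4 * Real.log C + 1) / ε1) ≤ L t * Real.log b := by
    intro t
    rw [← div_le_iff₀ hlogb]
    refine le_trans (Nat.le_ceil _) ?_
    exact_mod_cast le_trans (by rw [hLmin]; simp) (hLm t)
  have hLc2 : ∀ t, (Real.log C + 1) ≤ L t * Real.log b := by
    intro t
    rw [← div_le_iff₀ hlogb]
    refine le_trans (Nat.le_ceil _) ?_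
    exact_mod_cast le_trans (by rw [hLmin]; simp) (hLm t)
  have hLpos : ∀ t, (0 : ℝ) < L t := fun t => by exact_mod_cast hL1 t
  have hNpos : ∀ t, 0 < (L t : ℝ) * Real.log b := fun t => mul_pos (hLpos t) hlogb
  -- nonvanishing coefficients
  have hlamne : ∀ t i, lam t i ≠ 0 := by
    intro t i h0
    have h1 := hunif (L t) (hLLu t) (fun k => ex t (i.succAbove k))
      ((hex t).comp _ Fin.succAbove_right_injective) (fun k => lam t (i.succAbove k))
      (by
        intro hz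
        apply hlam t
        funext l
        rcases Fin.eq_self_or_eq_succAbove i l with h1 | ⟨k, h1⟩
        · rw [h1]; exact h0
        · rw [h1]; exact congrFun hz k)
      (by
        intro k
        refine le_trans (hle t _) ?_
        apply Real.exp_le_exp.mpr
        exact mul_le_mul_of_nonneg_right hε0u (hNpos t).le) (P t)
    have h2 : ∑ j, (lam t j : ℝ) * (b : ℝ) ^ (ex t j) =
        ∑ k, (lam t (i.succAbove k) : ℝ) * (b : ℝ) ^ (ex t (i.succAbove k)) := by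
      rw [Fin.sum_univ_succAbove _ i, h0]
      simp
    rw [← h2] at h1
    exact absurd (hf t) (not_le.mpr h1)
  set θ : ℕ → Fin (s + 1) → ℝ := fun t j => ξ * (b : ℝ) ^ (ex t j) with hθ
  have hform : ∀ t (lam : Fin (s + 1) → ℤ), ∑ i, θ t i * (lam i : ℝ) =
      ξ * ∑ j, (lam j : ℝ) * (b : ℝ) ^ (ex t j) := by
    intro t lam
    rw [Finset.mul_sum]
    apply Finset.sum_congr rfl
    intro i _
    rw [hθ]; ring
  have hga : ∀ t, ∃ (A : Fin (s + 2) → ℝ) (w : Fin (s + 1) → Fin (s + 2) → ℤ), (∀ l, 0 < A l) ∧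
      (∀ l, |-Real.log (A l)| ≤ (2 * δ + 1) * (L t * Real.log b)) ∧
      (ε1 / 4 * (L t * Real.log b) ≤ ∑ l, -Real.log (A l)) ∧ LinearIndependent ℤ w ∧
      (∀ i, ∑ l, (Fin.cons (-(P t)) (lam t) : Fin (s + 2) → ℤ) l * w i l = 0) ∧
      (∀ i, |(w i 0 : ℝ)| ≤ A 0) ∧ (∀ i (j : Fin (s + 1)),
        |(w i j.succ : ℝ) - θ t j * w i 0| ≤ A j.succ) := by
    intro t
    apply geom_apply C hC hgeom δ ε1 ε0 hδ hε1 hε0 hε01 hε1δ (L t * Real.log b) (hLc1 t) (hLc2 t)
      (θ t) (lam t) (hlam t) (P t) (hle t)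
    · rw [hform]; exact hf t
    · intro lam' P' h1 h2 h3
      rw [hform] at h2
      apply hgap (L t) (hLL1 t) (ex t) (hex t) (lam t) lam' (P t) P' (hlam t)
      · intro i
        refine le_trans (hle t i) (Real.exp_le_exp.mpr ?_)
        apply mul_le_mul_of_nonneg_right _ (hNpos t).le
        linarith
      · intro i
        refine le_trans (h1 i) (Real.exp_le_exp.mpr ?_)
        exact mul_le_mul_of_nonneg_right hε11 (hNpos t).le
      · refine le_trans (hf t) (Real.exp_le_exp.mpr ?_)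
        have := hNpos t
        nlinarith
      · exact h2
      · exact h3
  choose A w hApos hAlog hAsum hwind hworth hw0 hwj using hga
  choose p q hpq hrat hq0 using fun t => exists_pq
    ((Fin.cons (-(P t)) (lam t) : Fin (s + 2) → ℤ) j1 * (b : ℤ) ^
            ((Fin.cons 0 (ex t) : Fin (s + 2) → ℕ) j1))
    (-((Fin.cons (-(P t)) (lam t) : Fin (s + 2) → ℤ) j2 * (b : ℤ) ^
            ((Fin.cons 0 (ex t) : Fin (s + 2) → ℕ) j2)))
    (by
      obtain ⟨j, hj⟩ := Fin.exists_succ_eq.mpr hj1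
      rw [← hj]
      simp only [Fin.cons_succ]
      have : (b : ℤ) ≠ 0 := by
        have : b ≠ 0 := by omega
        exact_mod_cast this
      exact mul_ne_zero (hlamne t j) (pow_ne_zero _ this))
  set c : ℝ := ch + (2 * δ + 1) + 1 / δ with hc
  have hGδ : 0 < 1 / δ := by positivity
  have hc1 : 1 ≤ c := by rw [hc]; linarith
  refine codim_one_core hAux hRoth (s + 1) (by omega) b hb ξ hξ 0 j1 j2 hj1 hj12 c (ε1 / 4) hc1
    (by positivity) (fun t => L t * Real.log b) ?_ hNpos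
    (fun t => (Fin.cons 0 (ex t) : Fin (s + 2) → ℕ)) (fun t => rfl) ?_
    (fun t => (Fin.cons (-(P t)) (lam t) : Fin (s + 2) → ℤ)) A hApos ?_ hAsum w hwind hworth ?_ ?_
    p q hpq ?_ hq0 ?_
  · -- N tends to infinity
    apply Filter.Tendsto.atTop_mul_const hlogb
    apply tendsto_natCast_atTop_atTop.comp
    exact Filter.tendsto_atTop_mono hLt Filter.tendsto_id
  · intro t l
    refine Fin.cases ?_ (fun j => ?_) l
    · simp only [Fin.cons_zero]
      have := hNpos t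
      simp only [Nat.cast_zero, zero_mul]
      positivity
    · simp only [Fin.cons_succ]
      rw [← mul_assoc]
      apply mul_le_mul_of_nonneg_right _ hlogb.le
      have h1 : (ex t j : ℝ) ≤ L t / δ := by
        rw [le_div_iff₀ hδ]; linarith [(hex t).2.1 j]
      have h3 : (L t : ℝ) / δ = (1 / δ) * L t := by ring
      have h4 : (1 / δ) * L t ≤ c * L t := by
        apply mul_le_mul_of_nonneg_right _ (hLpos t).le
        rw [hc]; linarith
      linarith
  · intro t l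
    refine le_trans (hAlog t l) ?_
    apply mul_le_mul_of_nonneg_right _ (hNpos t).le
    rw [hc]; linarith
  · intro t i l
    refine Fin.cases ?_ (fun j => ?_) l
    · simp only [if_true, sub_zero]
      exact hw0 t i
    · rw [if_neg (Fin.succ_ne_zero j)]
      simp only [Fin.cons_succ]
      exact hwj t i j
  · intro t
    obtain ⟨j, hj⟩ := Fin.exists_succ_eq.mpr hj1
    rw [← hj]
    simp only [Fin.cons_succ]
    exact hlamne t j
  · intro t
    have := hrat t
    rw [this]; ring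
  · intro t
    have h1 := hheights (L t) (hLLh t) (ex t) (hex t) (lam t) (P t) (hlamne t)
      (by
        intro i
        refine le_trans (hle t i) (Real.exp_le_exp.mpr ?_)
        exact mul_le_mul_of_nonneg_right hε0δ (hNpos t).le) (hf t) (p t) (q t) (hq0 t)
      (by rw [hrat t]; ring)
    refine le_trans ?_ h1
    apply div_le_div_of_nonneg_left (hNpos t).le (by linarith)
    rw [hc]; linarith

theorem not_bad_integral (hAux : AuxPolyStmt) (hRoth : RothStmt) (hGeom : GeomStmt) {b : ℕ}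
    (hb : 2 ≤ b) {ξ : ℝ} (hξ : IsIntegral ℤ ξ) (hirr : Irrational ξ) :
    ∀ (s : ℕ) (δ : ℝ), 0 < δ → ¬ Bad b ξ s δ := by
  intro s
  induction s with
  | zero =>
    intro δ _ hB
    obtain ⟨L, _, _, _, lam, hlam, _⟩ := hB 1 one_pos 0
    apply hlam
    funext i
    exact Fin.elim0 i
  | succ s ih =>
    intro δ hδ
    exact bad_step hAux hRoth hGeom hb hξ hirr ih δ hδ

/-- The separated case of the subspace theorem for sums of powers of `b`. -/
theorem sep (b : ℕ) (hb : 2 ≤ b) (ξ : ℝ) (hξ : IsAlgebraic ℚ ξ) (hirr : Irrational ξ) (s : ℕ)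
    (δ : ℝ) (hδ : 0 < δ) :
    ∃ ε : ℝ, 0 < ε ∧ ∃ L0 : ℕ, ∀ L : ℕ, L0 ≤ L → ∀ e : Fin s → ℕ, Adm s δ L e →
      ∀ lam : Fin s → ℤ, lam ≠ 0 → (∀ j, |(lam j : ℝ)| ≤ Real.exp (ε * (L * Real.log b))) →
      ∀ P : ℤ, Real.exp (-(δ * (L * Real.log b))) <
        |ξ * ∑ j, (lam j : ℝ) * (b : ℝ) ^ (e j) - P| := by
  have hbR : (2 : ℝ) ≤ b := by exact_mod_cast hb
  have hb0 : (0 : ℝ) < b := by linarith
  have hlogb : 0 < Real.log b := Real.log_pos (by linarith)
  -- make ξ integral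
  have hz : IsAlgebraic ℤ ξ := (IsFractionRing.isAlgebraic_iff ℤ ℚ ℝ).mpr hξ
  obtain ⟨k, hk0, hk⟩ := hz.exists_integral_multiple
  have hk0R : (k : ℝ) ≠ 0 := by exact_mod_cast hk0
  have hkint : IsIntegral ℤ ((k : ℝ) * ξ) := by
    have : (k : ℝ) * ξ = k • ξ := by simp
    rw [this]; exact hk
  have hkirr : Irrational ((k : ℝ) * ξ) := by
    exact hirr.intCast_mul hk0
  have hnb := not_bad_integral auxPolyStmt rothStmt (fun n hn => geometry n hn) hb hkint hkirr s
    (δ / 2) (by positivity)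
  obtain ⟨ε, hε, L0, hL0⟩ := not_bad_iff hnb
  refine ⟨ε, hε, max L0 ⌈2 * Real.log |(k : ℝ)| / (δ * Real.log b)⌉₊, ?_⟩
  intro L hL e he lam hlam hle P
  have hL1 : L0 ≤ L := le_trans (le_max_left _ _) hL
  have hL2 : 2 * Real.log |(k : ℝ)| ≤ L * (δ * Real.log b) := by
    rw [← div_le_iff₀ (by positivity)]
    refine le_trans (Nat.le_ceil _) ?_
    exact_mod_cast le_trans (le_max_right _ _) hL
  have h1 := hL0 L hL1 e (he.mono (by linarith)) lam hlam hle (k * P)
  have h2 : (k : ℝ) * ξ * ∑ j, (lam j : ℝ) * (b : ℝ) ^ (e j) - ((k * P : ℤ) : ℝ) =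
      k * (ξ * ∑ j, (lam j : ℝ) * (b : ℝ) ^ (e j) - P) := by
    push_cast; ring
  rw [h2, abs_mul] at h1
  have hkpos : 0 < |(k : ℝ)| := abs_pos.mpr hk0R
  have h3 : Real.exp (-(δ / 2 * (L * Real.log b))) / |(k : ℝ)| <
      |ξ * ∑ j, (lam j : ℝ) * (b : ℝ) ^ (e j) - P| := by
    rw [div_lt_iff₀ hkpos]; linarith
  refine lt_of_le_of_lt ?_ h3
  rw [le_div_iff₀ hkpos]
  calc Real.exp (-(δ * (L * Real.log b))) * |(k : ℝ)| =
        Real.exp (-(δ * (L * Real.log b))) * Real.exp (Real.log |(k : ℝ)|) := by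
        rw [Real.exp_log hkpos]
    _ = Real.exp (-(δ * (L * Real.log b)) + Real.log |(k : ℝ)|) := by rw [Real.exp_add]
    _ ≤ Real.exp (-(δ / 2 * (L * Real.log b))) := by
      apply Real.exp_le_exp.mpr
      nlinarith

end Pool.Agent.H648R2.S
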