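import Mathlib
import Pool.Agent.H648R2.S.Thm

set_option autoImplicit false

open Finset

namespace Pool.Agent.H648R2.S

/-- The subspace theorem for sums of at most `D` terms `lam_i b^(e_i)`, no separation needed. -/
theorem merge (b : ℕ) (hb : 2 ≤ b) (ξ : ℝ) (hξ : IsAlgebraic ℚ ξ) (hirr : Irrational ξ) (D : ℕ) :
    ∀ δ : ℝ, 0 < δ →
    ∃ ε : ℝ, 0 < ε ∧ ∃ L0 : ℕ, ∀ L : ℕ, L0 ≤ L → ∀ e : Fin D → ℕ, (∀ i, L ≤ e i) →
      (∀ i, δ * e i ≤ L) →
      ∀ lam : Fin D → ℤ, (∀ j, |(lam j : ℝ)| ≤ Real.exp (ε * (L * Real.log b))) →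
      ∑ j, lam j * (b : ℤ) ^ (e j) ≠ 0 →
      ∀ P : ℤ, Real.exp (-(δ * (L * Real.log b))) <
        |ξ * ∑ j, (lam j : ℝ) * (b : ℝ) ^ (e j) - P| := by
  induction D with
  | zero =>
    intro δ hδ
    refine ⟨1, one_pos, 0, ?_⟩
    intro L _ e _ _ lam _ hne
    simp at hne
  | succ D ih =>
    intro δ hδ
    have hbR : (2 : ℝ) ≤ b := by exact_mod_cast hb
    have hb0 : (0 : ℝ) < b := by linarith
    have hlogb : 0 < Real.log b := Real.log_pos (by linarith)
    obtain ⟨ε', hε', L1, h1⟩ := ih δ hδ
    set δ' : ℝ := min δ (ε' / 4) with hδ'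
    have hδ'0 : 0 < δ' := by rw [hδ']; apply lt_min hδ; positivity
    have hδ'1 : δ' ≤ δ := min_le_left _ _
    have hδ'2 : δ' ≤ ε' / 4 := min_le_right _ _
    obtain ⟨ε2, hε2, L2, h2⟩ := sep b hb ξ hξ hirr (D + 1) δ' hδ'0
    set ε : ℝ := min ε2 (ε' / 4) with hεd
    have hε : 0 < ε := by rw [hεd]; apply lt_min hε2; positivity
    refine ⟨ε, hε, max L1 (max L2 ⌈2 / ε'⌉₊), ?_⟩
    intro L hL e he1 he2 lam hlam hne P
    have hL1 : L1 ≤ L := le_trans (le_max_left _ _) hL
    have hL2 : L2 ≤ L := le_trans (le_trans (le_max_left _ _) (le_max_right _ _)) hL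
    have hL3 : 2 / ε' ≤ L := by
      refine le_trans (Nat.le_ceil _) ?_
      exact_mod_cast le_trans (le_trans (le_max_right _ _) (le_max_right _ _)) hL
    set N : ℝ := (L : ℝ) * Real.log b with hN
    have hN0 : 0 ≤ N := by rw [hN]; positivity
    have htwo : 2 ≤ Real.exp (ε' / 2 * N) := by
      apply Pool.Agent.H393R2.two_le_exp hb
      rw [div_le_iff₀ hε'] at hL3
      linarith
    by_cases hsep : ∀ i j, i ≠ j → δ' * L ≤ |(e i : ℝ) - e j|
    · have h3 := h2 L hL2 e ⟨he1, fun i => le_trans (mul_le_mul_of_nonneg_right hδ'1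
        (Nat.cast_nonneg _)) (he2 i), hsep⟩ lam
        (by
          rintro rfl
          apply hne
          simp)
        (fun j => le_trans (hlam j) (Real.exp_le_exp.mpr
          (mul_le_mul_of_nonneg_right (min_le_left _ _) hN0))) P
      refine lt_of_le_of_lt ?_ h3
      apply Real.exp_le_exp.mpr
      have := mul_le_mul_of_nonneg_right hδ'1 hN0
      linarith
    · push Not at hsep
      obtain ⟨i0, j0, hij0, hlt0⟩ := hsep
      -- choose i with the larger exponent
      obtain ⟨i, j, hij, hle, hlt⟩ : ∃ i j : Fin (D + 1), i ≠ j ∧ e j ≤ e i ∧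
          ((e i - e j : ℕ) : ℝ) < δ' * L := by
        rcases le_total (e j0) (e i0) with h | h
        · refine ⟨i0, j0, hij0, h, ?_⟩
          rw [Nat.cast_sub h]
          exact lt_of_le_of_lt (le_abs_self _) hlt0
        · refine ⟨j0, i0, Ne.symm hij0, h, ?_⟩
          rw [Nat.cast_sub h]
          rw [abs_sub_comm] at hlt0
          exact lt_of_le_of_lt (le_abs_self _) hlt0
      obtain ⟨k, hk⟩ := Fin.exists_succAbove_eq (Ne.symm hij)
      set e' : Fin D → ℕ := fun l => e (i.succAbove l) with he'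
      set lam' : Fin D → ℤ := fun l => lam (i.succAbove l) +
        if l = k then lam i * (b : ℤ) ^ (e i - e j) else 0 with hlam'
      have hsumZ : ∑ l, lam' l * (b : ℤ) ^ (e' l) = ∑ l, lam l * (b : ℤ) ^ (e l) := by
        rw [Fin.sum_univ_succAbove _ i]
        simp only [hlam', he', add_mul, Finset.sum_add_distrib]
        rw [add_comm]
        congr 1
        rw [Finset.sum_eq_single k]
        · rw [if_pos rfl, hk, mul_assoc, ← pow_add]
          congr 2
          omega
        · intro l _ hl
          rw [if_neg hl, zero_mul]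
        · intro h; exact absurd (Finset.mem_univ _) h
      have hsumR : ∑ l, (lam' l : ℝ) * (b : ℝ) ^ (e' l) = ∑ l, (lam l : ℝ) * (b : ℝ) ^ (e l) := by
        exact_mod_cast congrArg (Int.cast (R := ℝ)) hsumZ
      have h3 := h1 L hL1 e' (fun l => he1 _) (fun l => he2 _) lam'
        (by
          intro l
          have h4 : |(lam' l : ℝ)| ≤ |(lam (i.succAbove l) : ℝ)| +
              |(lam i : ℝ)| * (b : ℝ) ^ (e i - e j) := by
            rw [hlam']
            push_cast
            refine le_trans (abs_add_le _ _) ?_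
            apply add_le_add le_rfl
            split_ifs
            · rw [abs_mul, abs_of_pos (by positivity : (0 : ℝ) < (b : ℝ) ^ (e i - e j))]
            · rw [abs_zero]; positivity
          have h5 : (b : ℝ) ^ (e i - e j) ≤ Real.exp (δ' * N) := by
            have h4 : (b : ℝ) ^ (e i - e j : ℕ) = Real.exp ((e i - e j : ℕ) * Real.log b) := by
              rw [← Real.rpow_natCast, Real.rpow_def_of_pos hb0, mul_comm]
            rw [h4]
            apply Real.exp_le_exp.mpr
            rw [hN, ← mul_assoc]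
            exact mul_le_mul_of_nonneg_right hlt.le hlogb.le
          have hεε : ε ≤ ε' / 4 := min_le_right _ _
          have h6 : |(lam (i.succAbove l) : ℝ)| ≤ Real.exp (ε' / 4 * N + δ' * N) := by
            refine le_trans (hlam _) (Real.exp_le_exp.mpr ?_)
            nlinarith
          have h7 : |(lam i : ℝ)| * (b : ℝ) ^ (e i - e j) ≤ Real.exp (ε' / 4 * N + δ' * N) := by
            rw [Real.exp_add]
            apply mul_le_mul _ h5 (by positivity) (Real.exp_pos _).le
            refine le_trans (hlam _) (Real.exp_le_exp.mpr ?_)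
            exact mul_le_mul_of_nonneg_right hεε hN0
          have h8 : Real.exp (ε' / 4 * N + δ' * N) ≤ Real.exp (ε' / 2 * N) := by
            apply Real.exp_le_exp.mpr
            nlinarith
          calc |(lam' l : ℝ)| ≤ Real.exp (ε' / 2 * N) + Real.exp (ε' / 2 * N) := by linarith
            _ = 2 * Real.exp (ε' / 2 * N) := by ring
            _ ≤ Real.exp (ε' / 2 * N) * Real.exp (ε' / 2 * N) :=
              mul_le_mul_of_nonneg_right htwo (Real.exp_pos _).le
            _ = Real.exp (ε' * N) := by rw [← Real.exp_add]; congr 1; ring)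
        (by rw [hsumZ]; exact hne) P
      rw [hsumR] at h3
      exact h3

end Pool.Agent.H648R2.S
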