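import Mathlib
import Pool.Agent.H648R2.S.Elim
import Pool.Agent.H648R2.S.Merge

set_option autoImplicit false

open Finset Polynomial

namespace Pool.Agent.H648R2.S

/-- `merge` uniformly in the number of terms, for polynomials -/
theorem merge_poly (b : ℕ) (hb : 2 ≤ b) (ξ : ℝ) (hξ : IsAlgebraic ℚ ξ) (hirr : Irrational ξ)
    (D H : ℕ) (δ : ℝ) (hδ : 0 < δ) :
    ∃ L0 : ℕ, ∀ L : ℕ, L0 ≤ L → ∀ Q : ℤ[X], Q.support.card ≤ D → (∀ i, |Q.coeff i| ≤ H) →
      δ * (L + Q.natDegree) ≤ L → Q.eval (b : ℤ) ≠ 0 →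
      ∀ P : ℤ, Real.exp (-(δ * (L * Real.log b))) <
        |ξ * ((b : ℝ) ^ L * ((Q.eval (b : ℤ) : ℤ) : ℝ)) - P| := by
  have hbR : (2 : ℝ) ≤ b := by exact_mod_cast hb
  have hb0 : (0 : ℝ) < b := by linarith
  have hlogb : 0 < Real.log b := Real.log_pos (by linarith)
  have hlog2 : 0 < Real.log 2 := Real.log_pos (by norm_num)
  choose ε hε L1 h1 using fun s => merge b hb ξ hξ hirr s δ hδ
  refine ⟨(Finset.range (D + 1)).sup (fun s => max (L1 s) ⌈(H : ℝ) / (ε s * Real.log b)⌉₊), ?_⟩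
  intro L hL Q hQD hQH hdeg hev P
  set s := Q.support.card with hs
  have hsL : max (L1 s) ⌈(H : ℝ) / (ε s * Real.log b)⌉₊ ≤ L :=
    le_trans (Finset.le_sup (f := fun s => max (L1 s) ⌈(H : ℝ) / (ε s * Real.log b)⌉₊)
      (Finset.mem_range.2 (by omega))) hL
  have hL1 : L1 s ≤ L := le_trans (le_max_left _ _) hsL
  have hL2 : (H : ℝ) / (ε s * Real.log b) ≤ L := by
    refine le_trans (Nat.le_ceil _) ?_
    exact_mod_cast le_trans (le_max_right _ _) hsL
  have hHexp : (H : ℝ) ≤ Real.exp (ε s * (L * Real.log b)) := by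
    rw [div_le_iff₀ (mul_pos (hε s) hlogb)] at hL2
    have h2 : ε s * (L * Real.log b) = L * (ε s * Real.log b) := by ring
    rw [h2]
    have h3 := Real.add_one_le_exp (L * (ε s * Real.log b))
    linarith
  let f : Fin s ≃ Q.support := (Q.support.equivFinOfCardEq rfl).symm
  have hsum : ∀ g : ℕ → ℤ, ∑ j : Fin s, g (f j : ℕ) = ∑ i ∈ Q.support, g i := by
    intro g
    rw [← Finset.sum_coe_sort Q.support g]
    exact Equiv.sum_comp f (fun i : Q.support => g (i : ℕ))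
  have hfdeg : ∀ j, (f j : ℕ) ≤ Q.natDegree := by
    intro j
    exact le_natDegree_of_mem_supp _ (f j).2
  have hval : ∑ j : Fin s, Q.coeff (f j) * (b : ℤ) ^ (L + (f j : ℕ)) =
      (b : ℤ) ^ L * Q.eval (b : ℤ) := by
    rw [hsum (fun i => Q.coeff i * (b : ℤ) ^ (L + i)), eval_eq_sum, Polynomial.sum_def,
      Finset.mul_sum]
    apply Finset.sum_congr rfl
    intro i _
    rw [pow_add]; ring
  have hvalR : ∑ j : Fin s, (Q.coeff (f j) : ℝ) * (b : ℝ) ^ (L + (f j : ℕ)) =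
      (b : ℝ) ^ L * ((Q.eval (b : ℤ) : ℤ) : ℝ) := by
    exact_mod_cast congrArg (Int.cast (R := ℝ)) hval
  have hb0Z : (b : ℤ) ≠ 0 := by omega
  have h2 := h1 s L hL1 (fun j => L + (f j : ℕ)) (fun j => Nat.le_add_right _ _)
    (by
      intro j
      refine le_trans ?_ hdeg
      apply mul_le_mul_of_nonneg_left _ hδ.le
      push_cast
      have : ((f j : ℕ) : ℝ) ≤ Q.natDegree := by exact_mod_cast hfdeg j
      linarith)
    (fun j => Q.coeff (f j))
    (by
      intro j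
      refine le_trans ?_ hHexp
      exact_mod_cast hQH (f j))
    (by
      rw [hval]
      exact mul_ne_zero (pow_ne_zero _ hb0Z) hev) P
  rw [hvalR] at h2
  exact h2

/-- **Core theorem.**  No short integer polynomial in the shift kills a long window of the
expansion of an algebraic irrational number. -/
theorem core (b : ℕ) (hb : 2 ≤ b) (ξ : ℝ) (hξ : IsAlgebraic ℚ ξ) (hirr : Irrational ξ)
    (B D H C : ℕ) :
    ∃ M : ℕ, ∀ (c : ℕ → ℤ) (x : ℕ → ℝ), (∀ n, |c n| ≤ B) → (∀ n, |x n| ≤ B) →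
      (∀ n, (b : ℝ) * x n = c (n + 1) + x (n + 1)) → (∀ n, ∃ k : ℤ, ξ * (b : ℝ) ^ n - x n = k) →
      ∀ m : ℕ, M ≤ m → ∀ P : ℤ[X], P ≠ 0 → P.support.card ≤ D → (∀ i, |P.coeff i| ≤ H) →
      P.natDegree ≤ C * m → ∃ n, 1 ≤ n ∧ n ≤ m ∧ act P c n ≠ 0 := by
  have hbR : (2 : ℝ) ≤ b := by exact_mod_cast hb
  have hb0 : (0 : ℝ) < b := by linarith
  have hlogb : 0 < Real.log b := Real.log_pos (by linarith)
  obtain ⟨D', K, helim⟩ := elim' hb H B D
  set δ : ℝ := 1 / (3 * C + 2) with hδ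
  have hδ0 : 0 < δ := by rw [hδ]; positivity
  obtain ⟨L0, hmerge⟩ := merge_poly b hb ξ hξ hirr D' H δ hδ0
  set G : ℕ := D' * H * B with hG
  refine ⟨2 * (L0 + 2 * (K + G) + 2), ?_⟩
  intro c x hc hx hrec hint m hm P hP0 hPD hPH hPdeg
  by_contra hcon
  push Not at hcon
  obtain ⟨Q, hQD, hQH, hQdeg, hev, hQ⟩ := helim c hc m P hP0 hPD hPH
    (fun n h1 h2 => hcon n h1 h2)
  set L : ℕ := m / 2 with hL
  have hLm : 2 * L ≤ m := by omega
  have hLm' : m ≤ 2 * L + 1 := by omega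
  have hLL0 : L0 + 2 * (K + G) + 1 ≤ L := by omega
  have hdeg : Q.natDegree ≤ C * (2 * L + 1) :=
    hQdeg.trans (hPdeg.trans (Nat.mul_le_mul_left _ hLm'))
  have hL1 : 1 ≤ L := by omega
  have hδdeg : δ * (L + Q.natDegree) ≤ L := by
    have h1 : (Q.natDegree : ℝ) ≤ C * (2 * L + 1) := by exact_mod_cast hdeg
    have h2 : (1 : ℝ) ≤ L := by exact_mod_cast hL1
    have h3 : (0 : ℝ) ≤ C := Nat.cast_nonneg _
    rw [hδ, div_mul_eq_mul_div, one_mul, div_le_iff₀ (by positivity)]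
    nlinarith
  -- the real tail
  have hrec' : ∀ n, (b : ℝ) * act Q x n = ((act Q c (n + 1) : ℤ) : ℝ) + act Q x (n + 1) := by
    intro n
    have h1 : (b : ℤ) • x = (fun k => ((c (k + 1) : ℤ) : ℝ)) + fun k => x (k + 1) := by
      funext k
      simp only [Pi.smul_apply, Pi.add_apply, zsmul_eq_mul]
      push_cast
      exact hrec k
    have h2 := congrFun (congrArg (act Q) h1) n
    rw [act_zsmul, act_add, Pi.smul_apply, Pi.add_apply, zsmul_eq_mul,
      act_E Q (fun k => ((c k : ℤ) : ℝ)) n, act_E, act_cast] at h2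
    push_cast at h2
    exact h2
  have hup : ∀ j, L + j ≤ m - K → (b : ℝ) ^ j * act Q x L = act Q x (L + j) := by
    intro j
    induction j with
    | zero => intro _; simp
    | succ j ih =>
      intro hj
      have h1 := ih (by omega)
      have h2 := hrec' (L + j)
      rw [hQ (L + j + 1) (by omega) (by omega)] at h2
      rw [pow_succ', mul_assoc, h1, h2]
      simp [add_assoc]
  have hb1 : |act Q x L| * (b : ℝ) ^ (m - K - L) ≤ G := by
    have h1 := hup (m - K - L) (by omega)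
    have h2 := abs_act_le Q x D' H B hQD hQH hx (L + (m - K - L))
    rw [← h1, abs_mul, abs_of_pos (by positivity : (0 : ℝ) < (b : ℝ) ^ (m - K - L))] at h2
    rw [mul_comm]
    exact h2
  -- the integer
  choose kk hkk using hint
  have hintQ : ξ * ((b : ℝ) ^ L * ((Q.eval (b : ℤ) : ℤ) : ℝ)) - act Q x L =
      ((act Q kk L : ℤ) : ℝ) := by
    have h1 : (fun n => ξ * (b : ℝ) ^ n) = x + fun n => ((kk n : ℤ) : ℝ) := by
      funext n
      simp only [Pi.add_apply]
      rw [← hkk n]; ring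
    have h2 := congrFun (congrArg (act Q) h1) L
    rw [act_add, Pi.add_apply, act_cast] at h2
    have h2' : act Q (fun n => ξ * (b : ℝ) ^ n) L =
        ξ * ((b : ℝ) ^ L * ((Q.eval (b : ℤ) : ℤ) : ℝ)) := by
      rw [act_eq, eval_eq_sum, Polynomial.sum_def]
      push_cast
      rw [Finset.mul_sum, Finset.mul_sum]
      apply Finset.sum_congr rfl
      intro i _
      rw [zsmul_eq_mul, pow_add]; ring
    rw [h2'] at h2
    linarith
  have h3 := hmerge L (by omega) Q hQD hQH hδdeg hev (act Q kk L)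
  rw [← hintQ] at h3
  have h4 : ξ * ((b : ℝ) ^ L * ((Q.eval (b : ℤ) : ℤ) : ℝ)) -
      (ξ * ((b : ℝ) ^ L * ((Q.eval (b : ℤ) : ℤ) : ℝ)) - act Q x L) = act Q x L := by ring
  rw [h4] at h3
  have hpow : (b : ℝ) ^ (m - K - L) = Real.exp (((m - K - L : ℕ) : ℝ) * Real.log b) := by
    rw [← Real.rpow_natCast, Real.rpow_def_of_pos hb0, mul_comm]
  have hGexp : (G : ℝ) ≤ Real.exp (G * Real.log b) := by
    have h5 : Real.exp (G * Real.log b) = (b : ℝ) ^ G := by
      rw [← Real.rpow_natCast, Real.rpow_def_of_pos hb0, mul_comm]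
    rw [h5]
    have : G < b ^ G := Nat.lt_pow_self (by omega)
    exact_mod_cast this.le
  have h6 : Real.exp (-(δ * (L * Real.log b))) * (b : ℝ) ^ (m - K - L) < G :=
    lt_of_lt_of_le (mul_lt_mul_of_pos_right h3 (by positivity)) hb1
  rw [hpow, ← Real.exp_add] at h6
  have h7 := lt_of_lt_of_le h6 hGexp
  rw [Real.exp_lt_exp] at h7
  have h8 : ((m - K - L : ℕ) : ℝ) ≥ L - K := by
    have h9 : L ≤ (m - K - L) + K := by omega
    have h10 : (L : ℝ) ≤ ((m - K - L : ℕ) : ℝ) + K := by exact_mod_cast h9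
    linarith
  have h9 : δ ≤ 1 / 2 := by
    rw [hδ]
    apply div_le_div_of_nonneg_left (by norm_num) (by norm_num)
    have : (0 : ℝ) ≤ C := Nat.cast_nonneg _
    linarith
  have h10 : (2 * (K + G) : ℝ) + 1 ≤ L := by
    have : 2 * (K + G) + 1 ≤ L := by omega
    exact_mod_cast this
  have h11 : 0 < (((m - K - L : ℕ) : ℝ) - δ * L - G) := by
    have : δ * L ≤ 1 / 2 * L := mul_le_mul_of_nonneg_right h9 (Nat.cast_nonneg _)
    linarith
  have h12 := mul_pos h11 hlogb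
  nlinarith

end Pool.Agent.H648R2.S
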