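import Mathlib
import Pool.Agent.H648R2.S.Core

set_option autoImplicit false

open Finset Polynomial

namespace Pool.Agent.H648R2.S

/-- the sparse polynomial with given exponents and coefficients -/
noncomputable def sp {D : ℕ} (t : Fin D → ℕ) (lam : Fin D → ℤ) : ℤ[X] :=
  ∑ j, C (lam j) * X ^ (t j)

lemma sp_coeff {D : ℕ} (t : Fin D → ℕ) (lam : Fin D → ℤ) (i : ℕ) :
    (sp t lam).coeff i = ∑ j, if i = t j then lam j else 0 := by
  unfold sp
  rw [finset_sum_coeff]
  apply Finset.sum_congr rfl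
  intro j _
  rw [coeff_C_mul_X_pow]

lemma sp_coeff_self {D : ℕ} (t : Fin D → ℕ) (ht : Function.Injective t) (lam : Fin D → ℤ)
    (j : Fin D) : (sp t lam).coeff (t j) = lam j := by
  rw [sp_coeff, Finset.sum_eq_single j]
  · simp
  · intro k _ hk
    rw [if_neg (fun h => hk (ht h).symm)]
  · intro h; exact absurd (Finset.mem_univ _) h

lemma sp_supp {D : ℕ} (t : Fin D → ℕ) (lam : Fin D → ℤ) :
    (sp t lam).support ⊆ Finset.univ.image t := by
  intro i hi
  rw [mem_support_iff, sp_coeff] at hi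
  by_contra hcon
  apply hi
  apply Finset.sum_eq_zero
  intro j _
  rw [if_neg]
  rintro rfl
  exact hcon (Finset.mem_image_of_mem _ (Finset.mem_univ _))

lemma sp_supp_card {D : ℕ} (t : Fin D → ℕ) (lam : Fin D → ℤ) : (sp t lam).support.card ≤ D := by
  refine (Finset.card_le_card (sp_supp t lam)).trans ?_
  refine Finset.card_image_le.trans ?_
  simp

lemma sp_natDegree {D : ℕ} (t : Fin D → ℕ) (lam : Fin D → ℤ) (N : ℕ) (hN : ∀ j, t j ≤ N) :
    (sp t lam).natDegree ≤ N := by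
  by_cases h0 : sp t lam = 0
  · rw [h0]; simp
  · have h1 := sp_supp t lam (natDegree_mem_support_of_nonzero h0)
    obtain ⟨j, _, hj⟩ := Finset.mem_image.1 h1
    rw [← hj]; exact hN j

lemma sp_act {D : ℕ} (t : Fin D → ℕ) (lam : Fin D → ℤ) (c : ℕ → ℤ) (n : ℕ) :
    act (sp t lam) c n = ∑ j, lam j * c (n + t j) := by
  unfold act sp
  rw [map_sum, LinearMap.sum_apply, Finset.sum_apply]
  apply Finset.sum_congr rfl
  intro j _
  rw [map_mul, aeval_C, map_pow, aeval_X, Module.End.mul_apply]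
  simp [E_pow]

/-- uniform integer relations -/
lemma uniform_rel (D B : ℕ) : ∃ H : ℕ, ∀ (m : ℕ) (v : Fin D → Fin m → ℤ),
    (∀ j i, |v j i| ≤ B) → (∃ g : Fin D → ℤ, g ≠ 0 ∧ ∀ i, ∑ j, g j * v j i = 0) →
    ∃ g : Fin D → ℤ, g ≠ 0 ∧ (∀ j, |g j| ≤ H) ∧ ∀ i, ∑ j, g j * v j i = 0 := by
  classical
  let Box := Fin D → (Finset.Icc (-(B : ℤ)) B)
  let good : Finset Box → (Fin D → ℤ) → Prop := fun U g => g ≠ 0 ∧
    ∀ u ∈ U, ∑ j, g j * (u j : ℤ) = 0
  let pick : Finset Box → (Fin D → ℤ) := fun U =>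
    if h : ∃ g, good U g then h.choose else 0
  refine ⟨∑ U : Finset Box, ∑ j, (pick U j).natAbs, ?_⟩
  intro m v hv ⟨g, hg0, hg⟩
  let col : Fin m → Box := fun i j => ⟨v j i, by
    rw [Finset.mem_Icc, ← abs_le]; exact hv j i⟩
  let U : Finset Box := Finset.univ.image col
  have hex : ∃ g, good U g := by
    refine ⟨g, hg0, ?_⟩
    intro u hu
    obtain ⟨i, _, rfl⟩ := Finset.mem_image.1 hu
    exact hg i
  have hpick : pick U = hex.choose := dif_pos hex
  have hspec := hex.choose_spec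
  refine ⟨pick U, ?_, ?_, ?_⟩
  · rw [hpick]; exact hspec.1
  · intro j
    rw [Int.abs_eq_natAbs]
    have h1 : (pick U j).natAbs ≤ ∑ j, (pick U j).natAbs :=
      Finset.single_le_sum (f := fun j => (pick U j).natAbs) (fun _ _ => Nat.zero_le _)
        (Finset.mem_univ j)
    have h2 : ∑ j, (pick U j).natAbs ≤ ∑ U : Finset Box, ∑ j, (pick U j).natAbs :=
      Finset.single_le_sum (f := fun U => ∑ j, (pick U j).natAbs) (fun _ _ => Nat.zero_le _)
        (Finset.mem_univ U)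
    exact_mod_cast h1.trans h2
  · intro i
    rw [hpick]
    exact hspec.2 (col i) (Finset.mem_image_of_mem _ (Finset.mem_univ _))

/-- **Window independence** for a bounded integer expansion of an algebraic irrational. -/
theorem window_indep (b : ℕ) (hb : 2 ≤ b) (ξ : ℝ) (hξ : IsAlgebraic ℚ ξ) (hirr : Irrational ξ)
    (B D C : ℕ) :
    ∃ M : ℕ, ∀ (c : ℕ → ℤ) (x : ℕ → ℝ), (∀ n, |c n| ≤ B) → (∀ n, |x n| ≤ B) →
      (∀ n, (b : ℝ) * x n = c (n + 1) + x (n + 1)) → (∀ n, ∃ k : ℤ, ξ * (b : ℝ) ^ n - x n = k) →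
      ∀ m : ℕ, M ≤ m → ∀ t : Fin D → ℕ, Function.Injective t → (∀ j, t j ≤ C * m) →
      LinearIndependent ℚ (fun (j : Fin D) (i : Fin m) => (c (t j + i + 1) : ℚ)) := by
  obtain ⟨H, hH⟩ := uniform_rel D B
  obtain ⟨M, hM⟩ := core b hb ξ hξ hirr B D H C
  refine ⟨M, ?_⟩
  intro c x hc hx hrec hint m hm t ht htC
  by_contra hdep
  rw [← LinearIndependent.iff_fractionRing (R := ℤ), Fintype.not_linearIndependent_iff] at hdep
  obtain ⟨g, hg, j0, hj0⟩ := hdep
  obtain ⟨g', hg'0, hg'H, hg'⟩ := hH m (fun j i => c (t j + i + 1)) (fun j i => hc _)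
    ⟨g, fun h => hj0 (by rw [h]; rfl), by
      intro i
      have h1 := congrFun hg i
      rw [Finset.sum_apply] at h1
      have h2 : ∑ j, (g j : ℚ) * (c (t j + i + 1) : ℚ) = 0 := by
        rw [← h1.trans (Pi.zero_apply i)]
        apply Finset.sum_congr rfl
        intro j _
        rw [Pi.smul_apply, zsmul_eq_mul]
      exact_mod_cast h2⟩
  obtain ⟨n, hn1, hn2, hn3⟩ := hM c x hc hx hrec hint m hm (sp t g')
    (by
      intro h0
      apply hg'0
      funext j
      rw [← sp_coeff_self t ht g' j, h0]; simp)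
    (sp_supp_card t g')
    (by
      intro i
      by_cases hi : i ∈ (sp t g').support
      · obtain ⟨j, _, rfl⟩ := Finset.mem_image.1 (sp_supp t g' hi)
        rw [sp_coeff_self t ht]; exact hg'H j
      · rw [notMem_support_iff.1 hi, abs_zero]; positivity)
    (sp_natDegree t g' _ htC)
  apply hn3
  rw [sp_act]
  have h1 := hg' ⟨n - 1, by omega⟩
  rw [← h1]
  apply Finset.sum_congr rfl
  intro j _
  congr 2
  simp only
  omega

end Pool.Agent.H648R2.S
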