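import Mathlib
import Pool.Agent.H648R2.S.Windows

set_option autoImplicit false

open Finset Polynomial

namespace Pool.Agent.H648R2.S

/-- the `n`-th base-`b` digit after the point of the real number `ξ` (`n ≥ 1`) -/
noncomputable def dig (b : ℕ) (ξ : ℝ) (n : ℕ) : ℤ := ⌊ξ * (b : ℝ) ^ n⌋ % (b : ℤ)

lemma dig_nonneg {b : ℕ} (hb : 2 ≤ b) (ξ : ℝ) (n : ℕ) : 0 ≤ dig b ξ n :=
  Int.emod_nonneg _ (by omega)

lemma dig_lt {b : ℕ} (hb : 2 ≤ b) (ξ : ℝ) (n : ℕ) : dig b ξ n < b :=
  Int.emod_lt_of_pos _ (by omega)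

lemma dig_abs {b : ℕ} (hb : 2 ≤ b) (ξ : ℝ) (n : ℕ) : |dig b ξ n| ≤ b := by
  rw [abs_of_nonneg (dig_nonneg hb ξ n)]
  exact (dig_lt hb ξ n).le

lemma floor_mul_ediv {b : ℕ} (hb : 2 ≤ b) (y : ℝ) : ⌊(b : ℝ) * y⌋ / (b : ℤ) = ⌊y⌋ := by
  have hbR : (2 : ℝ) ≤ b := by exact_mod_cast hb
  have hbZ : (0 : ℤ) < b := by omega
  rw [Int.ediv_eq_iff_of_pos hbZ]
  have h1 := Int.floor_le y
  have h2 := Int.lt_floor_add_one y
  constructor
  · rw [Int.le_floor]; push_cast; nlinarith
  · rw [Int.floor_lt]; push_cast; nlinarith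

lemma dig_rec {b : ℕ} (hb : 2 ≤ b) (ξ : ℝ) (n : ℕ) :
    (b : ℝ) * Int.fract (ξ * (b : ℝ) ^ n) =
      dig b ξ (n + 1) + Int.fract (ξ * (b : ℝ) ^ (n + 1)) := by
  set y : ℝ := ξ * (b : ℝ) ^ n with hy
  have hy1 : ξ * (b : ℝ) ^ (n + 1) = b * y := by rw [hy, pow_succ]; ring
  have h1 : (⌊(b : ℝ) * y⌋ : ℤ) = b * ⌊y⌋ + dig b ξ (n + 1) := by
    unfold dig
    rw [hy1]
    have h3 := Int.mul_ediv_add_emod ⌊(b : ℝ) * y⌋ (b : ℤ)
    rw [floor_mul_ediv hb] at h3
    linarith
  rw [hy1]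
  unfold Int.fract
  have h2 : ((⌊(b : ℝ) * y⌋ : ℤ) : ℝ) = b * ⌊y⌋ + dig b ξ (n + 1) := by exact_mod_cast h1
  rw [h2]; ring

/-- window independence for digits, over `ℝ` -/
theorem dig_indep (b : ℕ) (hb : 2 ≤ b) (ξ : ℝ) (hξ : IsAlgebraic ℚ ξ) (hirr : Irrational ξ)
    (D C : ℕ) :
    ∃ M : ℕ, ∀ m : ℕ, M ≤ m → ∀ t : Fin D → ℕ, Function.Injective t → (∀ j, t j ≤ C * m) →
      LinearIndependent ℝ (fun (j : Fin D) (i : Fin m) => (dig b ξ (t j + i + 1) : ℝ)) := by
  obtain ⟨M, hM⟩ := window_indep b hb ξ hξ hirr b D C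
  refine ⟨M, ?_⟩
  intro m hm t ht htC
  have h1 := hM (dig b ξ) (fun n => Int.fract (ξ * (b : ℝ) ^ n)) (dig_abs hb ξ)
    (by
      intro n
      rw [abs_of_nonneg (Int.fract_nonneg _)]
      have h1 := (Int.fract_lt_one (ξ * (b : ℝ) ^ n)).le
      have h2 : (1 : ℝ) ≤ b := by exact_mod_cast (by omega : 1 ≤ b)
      linarith)
    (dig_rec hb ξ) (fun n => ⟨⌊ξ * (b : ℝ) ^ n⌋, by unfold Int.fract; ring⟩) m hm t ht htC
  rw [Fintype.linearIndependent_iff] at h1 ⊢
  intro g hg j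
  rw [← Module.forall_dual_apply_eq_zero_iff ℚ (g j)]
  intro φ
  refine h1 (fun j => φ (g j)) ?_ j
  funext i
  have h2 := congrFun hg i
  rw [Finset.sum_apply] at h2
  rw [Finset.sum_apply]
  have h3 : φ (∑ j, (g j • fun (i : Fin m) => (dig b ξ (t j + i + 1) : ℝ)) i) = 0 := by
    rw [h2]; simp
  rw [map_sum] at h3
  rw [Pi.zero_apply, ← h3]
  apply Finset.sum_congr rfl
  intro k _
  simp only [Pi.smul_apply, smul_eq_mul]
  have h4 : g k * (dig b ξ (t k + i + 1) : ℝ) = dig b ξ (t k + i + 1) • g k := by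
    rw [zsmul_eq_mul]; ring
  rw [h4, map_zsmul, zsmul_eq_mul]
  ring

/-! ### sums of periodic words -/

lemma act_congr {R : Type*} [AddCommGroup R] (P : ℤ[X]) (f g : ℕ → R) (n : ℕ)
    (h : ∀ i, i ≤ P.natDegree → f (n + i) = g (n + i)) : act P f n = act P g n := by
  rw [act_eq, act_eq]
  apply Finset.sum_congr rfl
  intro i hi
  rw [h i (le_natDegree_of_mem_supp _ hi)]

/-- the product of the polynomials `X^(p j) - 1` -/
noncomputable def perPoly {D : ℕ} (p : Fin D → ℕ) : ℤ[X] := ∏ j, (X ^ (p j) - 1)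

lemma act_per {R : Type*} [AddCommGroup R] (p : ℕ) (f : ℕ → R) (hf : ∀ n, f (n + p) = f n) :
    act (X ^ p - 1) f = 0 := by
  funext n
  unfold act
  rw [map_sub, map_pow, aeval_X, map_one, LinearMap.sub_apply, Pi.sub_apply, E_pow, hf]
  simp

lemma act_perPoly {R : Type*} [AddCommGroup R] {D : ℕ} (p : Fin D → ℕ) (f : Fin D → ℕ → R)
    (hf : ∀ j n, f j (n + p j) = f j n) : act (perPoly p) (∑ j, f j) = 0 := by
  have h1 : act (perPoly p) (∑ j, f j) = ∑ j, act (perPoly p) (f j) := by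
    unfold act; rw [map_sum]
  rw [h1]
  apply Finset.sum_eq_zero
  intro j _
  have h2 : perPoly p = (∏ i ∈ Finset.univ.erase j, (X ^ (p i) - 1)) * (X ^ (p j) - 1) := by
    unfold perPoly
    rw [Finset.prod_erase_mul _ _ (Finset.mem_univ j)]
  rw [h2, act_mul, act_per _ _ (hf j)]
  unfold act
  rw [map_zero]

lemma support_mul_card (P Q : ℤ[X]) :
    (P * Q).support.card ≤ P.support.card * Q.support.card := by
  classical
  have hsub : (P * Q).support ⊆ Finset.image₂ (· + ·) P.support Q.support := by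
    intro i hi
    rw [mem_support_iff, coeff_mul] at hi
    obtain ⟨x, hx, hne⟩ := Finset.exists_ne_zero_of_sum_ne_zero hi
    rw [Finset.mem_image₂]
    refine ⟨x.1, mem_support_iff.2 (left_ne_zero_of_mul hne), x.2,
      mem_support_iff.2 (right_ne_zero_of_mul hne), ?_⟩
    exact Finset.HasAntidiagonal.mem_antidiagonal.1 hx
  exact (Finset.card_le_card hsub).trans (Finset.card_image₂_le _ _ _)

lemma coeff_bound_mul (P : ℤ[X]) (p H : ℕ) (hH : ∀ i, |P.coeff i| ≤ H) :
    ∀ i, |(P * (X ^ p - 1)).coeff i| ≤ ((2 * H : ℕ) : ℤ) := by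
  intro i
  rw [mul_sub, mul_one, coeff_sub, coeff_mul_X_pow']
  have h1 := hH i
  push_cast
  split_ifs with h
  · have h2 := hH (i - p)
    have h3 := abs_sub (P.coeff (i - p)) (P.coeff i)
    linarith
  · rw [zero_sub, abs_neg]
    have : (0 : ℤ) ≤ H := by positivity
    linarith

lemma perPoly_props : ∀ (D : ℕ) (p : Fin D → ℕ), (∀ j, 0 < p j) →
    perPoly p ≠ 0 ∧ (perPoly p).support.card ≤ 2 ^ D ∧
      (∀ i, |(perPoly p).coeff i| ≤ ((2 ^ D : ℕ) : ℤ)) ∧ (perPoly p).natDegree ≤ ∑ j, p j := by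
  intro D
  induction D with
  | zero =>
    intro p _
    have h1 : perPoly p = 1 := by unfold perPoly; simp
    rw [h1]
    refine ⟨one_ne_zero, ?_, ?_, by simp⟩
    · have h2 : (1 : ℤ[X]).support ⊆ {0} := by
        intro i hi
        rw [mem_support_iff, coeff_one] at hi
        by_contra hcon
        apply hi
        rw [if_neg (by simpa using hcon)]
      exact Finset.card_le_card h2
    · intro i
      rw [coeff_one]
      split_ifs <;> simp
  | succ D ih =>
    intro p hp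
    obtain ⟨h1, h2, h3, h4⟩ := ih (fun j => p j.castSucc) (fun j => hp _)
    have hsplit : perPoly p = perPoly (fun j => p j.castSucc) * (X ^ (p (Fin.last D)) - 1) := by
      unfold perPoly
      rw [Fin.prod_univ_castSucc]
    have hXne : (X ^ (p (Fin.last D)) - 1 : ℤ[X]) ≠ 0 := by
      intro h0
      have h5 := congrArg (fun q => Polynomial.coeff q (p (Fin.last D))) h0
      simp only [coeff_sub, coeff_X_pow, if_true, coeff_one, coeff_zero] at h5
      rw [if_neg (by have := hp (Fin.last D); omega)] at h5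
      simp at h5
    refine ⟨?_, ?_, ?_, ?_⟩
    · rw [hsplit]; exact mul_ne_zero h1 hXne
    · rw [hsplit]
      refine (support_mul_card _ _).trans ?_
      rw [pow_succ]
      apply Nat.mul_le_mul h2
      have h5 : (X ^ (p (Fin.last D)) - 1 : ℤ[X]).support ⊆ {p (Fin.last D), 0} := by
        intro i hi
        rw [mem_support_iff, coeff_sub, coeff_X_pow, coeff_one] at hi
        by_contra hcon
        simp only [Finset.mem_insert, Finset.mem_singleton, not_or] at hcon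
        apply hi
        rw [if_neg hcon.1, if_neg hcon.2]; simp
      exact (Finset.card_le_card h5).trans Finset.card_le_two
    · intro i
      rw [hsplit]
      have h5 := coeff_bound_mul _ (p (Fin.last D)) (2 ^ D) h3 i
      rw [pow_succ, mul_comm (2 ^ D) 2]
      exact h5
    · rw [hsplit, Fin.sum_univ_castSucc]
      refine natDegree_mul_le.trans ?_
      apply Nat.add_le_add h4
      refine (natDegree_sub_le _ _).trans ?_
      simp

/-- the polynomial form for digits -/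
theorem dig_core (b : ℕ) (hb : 2 ≤ b) (ξ : ℝ) (hξ : IsAlgebraic ℚ ξ) (hirr : Irrational ξ)
    (D H C : ℕ) :
    ∃ M : ℕ, ∀ m : ℕ, M ≤ m → ∀ P : ℤ[X], P ≠ 0 → P.support.card ≤ D → (∀ i, |P.coeff i| ≤ H) →
      P.natDegree ≤ C * m → ∃ n, 1 ≤ n ∧ n ≤ m ∧ act P (dig b ξ) n ≠ 0 := by
  obtain ⟨M, hM⟩ := core b hb ξ hξ hirr b D H C
  refine ⟨M, ?_⟩
  exact hM (dig b ξ) (fun n => Int.fract (ξ * (b : ℝ) ^ n)) (dig_abs hb ξ)
    (by
      intro n
      rw [abs_of_nonneg (Int.fract_nonneg _)]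
      have h1 := (Int.fract_lt_one (ξ * (b : ℝ) ^ n)).le
      have h2 : (1 : ℝ) ≤ b := by exact_mod_cast (by omega : 1 ≤ b)
      linarith)
    (dig_rec hb ξ) (fun n => ⟨⌊ξ * (b : ℝ) ^ n⌋, by unfold Int.fract; ring⟩)

lemma act_X_pow_mul {R : Type*} [AddCommGroup R] (s : ℕ) (P : ℤ[X]) (f : ℕ → R) (n : ℕ) :
    act (X ^ s * P) f n = act P f (n + s) := by
  rw [act_mul]
  have h1 : act (X ^ s) (act P f) n = act P f (n + s) := by
    conv_lhs => unfold act
    rw [map_pow, aeval_X, E_pow]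
    rfl
  exact h1

/-- long digit blocks are not sums of few periodic words -/
theorem dig_not_sum_periodic (b : ℕ) (hb : 2 ≤ b) (ξ : ℝ) (hξ : IsAlgebraic ℚ ξ)
    (hirr : Irrational ξ) (D C : ℕ) (ε : ℝ) (hε : 0 < ε) :
    ∃ M : ℕ, ∀ m : ℕ, M ≤ m → ∀ s : ℕ, s ≤ C * m → ∀ p : Fin D → ℕ, (∀ j, 0 < p j) →
      ((∑ j, p j : ℕ) : ℝ) ≤ (1 - ε) * m →
      ¬ ∃ f : Fin D → ℕ → ℝ, (∀ j n, f j (n + p j) = f j n) ∧
        ∀ i, i < m → (dig b ξ (s + i + 1) : ℝ) = ∑ j, f j i := by
  obtain ⟨K, hK⟩ := exists_nat_gt (1 / ε)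
  have hK0 : 0 < K := by
    rcases Nat.eq_zero_or_pos K with h | h
    · rw [h, Nat.cast_zero] at hK
      have : 0 < 1 / ε := by positivity
      linarith
    · exact h
  obtain ⟨M, hM⟩ := dig_core b hb ξ hξ hirr (2 ^ D) (2 ^ D) (4 * K * (C + 1))
  refine ⟨2 * K * (M + 1) , ?_⟩
  intro m hm s hs p hp hsum ⟨f, hf, hdig⟩
  obtain ⟨h1, h2, h3, h4⟩ := perPoly_props D p hp
  -- the smaller window
  set m' : ℕ := m / (2 * K) with hm'
  have hKpos : 0 < 2 * K := by omega
  have hm'1 : m' * (2 * K) ≤ m := Nat.div_mul_le_self _ _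
  have hm'2 : m < (m' + 1) * (2 * K) := by
    have := Nat.lt_div_mul_add (a := m) hKpos
    rw [hm', Nat.add_mul, one_mul]; omega
  have hm'M : M + 1 ≤ m' := by
    rw [hm', Nat.le_div_iff_mul_le hKpos]
    rw [mul_comm]; exact hm
  have hεK : 1 < ε * K := by
    rw [div_lt_iff₀ hε] at hK; linarith
  have hsumm : (∑ j, p j) + m' ≤ m := by
    have h5 : (m' : ℝ) * (2 * K) ≤ m := by exact_mod_cast hm'1
    have h6 : (0 : ℝ) ≤ m' := Nat.cast_nonneg _
    have h7 : (m' : ℝ) ≤ ε * m := by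
      have h8 : (m' : ℝ) * (ε * (2 * K)) ≤ ε * m := by nlinarith
      nlinarith
    have h8 : (((∑ j, p j) + m' : ℕ) : ℝ) ≤ m := by
      rw [Nat.cast_add]; linarith
    exact_mod_cast h8
  obtain ⟨n, hn1, hn2, hn3⟩ := hM m' (by omega) (X ^ s * perPoly p)
    (mul_ne_zero (pow_ne_zero _ X_ne_zero) h1)
    (by
      have h5 : (X ^ s * perPoly p).support.card ≤ 1 * (perPoly p).support.card := by
        refine (support_mul_card _ _).trans ?_
        apply Nat.mul_le_mul_right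
        have h6 : (X ^ s : ℤ[X]).support ⊆ {s} := by
          intro i hi
          rw [mem_support_iff, coeff_X_pow] at hi
          by_contra hcon
          apply hi
          rw [if_neg (by simpa using hcon)]
        exact Finset.card_le_card h6
      omega)
    (by
      intro i
      rw [coeff_X_pow_mul']
      split_ifs
      · exact h3 _
      · rw [abs_zero]; positivity)
    (by
      refine natDegree_mul_le.trans ?_
      rw [natDegree_X_pow]
      have h5 : (perPoly p).natDegree ≤ m := h4.trans (by omega)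
      have h6 : s + (perPoly p).natDegree ≤ (C + 1) * m := by
        rw [Nat.add_mul, one_mul]; exact Nat.add_le_add hs h5
      have h7 : m ≤ 4 * K * m' := by nlinarith
      calc s + (perPoly p).natDegree ≤ (C + 1) * m := h6
        _ ≤ (C + 1) * (4 * K * m') := Nat.mul_le_mul_left _ h7
        _ = 4 * K * (C + 1) * m' := by ring)
  apply hn3
  rw [act_X_pow_mul]
  have hR : act (perPoly p) (fun k => (dig b ξ k : ℝ)) (n + s) = 0 := by
    have h5 : act (perPoly p) (fun k => (dig b ξ k : ℝ)) (n + s) =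
        act (perPoly p) (fun k => (dig b ξ (s + k + 1) : ℝ)) (n - 1) := by
      rw [act_eq, act_eq]
      apply Finset.sum_congr rfl
      intro i _
      have : n + s + i = s + (n - 1 + i) + 1 := by omega
      rw [this]
    rw [h5, act_congr (perPoly p) _ (∑ j, f j) (n - 1), act_perPoly p f hf]
    · rfl
    · intro i hi
      rw [Finset.sum_apply]
      exact hdig (n - 1 + i) (by
        have := hi.trans h4
        omega)
  rw [act_cast] at hR
  exact_mod_cast hR

end Pool.Agent.H648R2.S
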